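import Pool.Agent.NCM.Stmts

/-!
# The pair `(diag (x_i), (1 / (x_i - x_j)))` is a Calogero-Moser pair
-/

open Matrix Pool.Agent.Lib_helper20.Noether

namespace Pool.Agent.NCM

namespace CMX

theorem x_injective (n : ℕ) : Function.Injective (x : Fin n → E (Fin n)) := by
  intro i j h
  exact MvPolynomial.X_injective (IsFractionRing.injective (MvPolynomial (Fin n) ℂ) (E (Fin n)) h)

theorem skew (n : ℕ) : (cmA n)ᵀ = - cmA n := by
  ext i j
  simp only [cmA, transpose_apply, of_apply, Matrix.neg_apply]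
  rw [← neg_sub (x i) (x j)]
  exact _root_.inv_neg

theorem symm (n : ℕ) : (cmX n)ᵀ = cmX n := by
  rw [cmX, diagonal_transpose]

theorem comm (n : ℕ) : cmX n * cmA n - cmA n * cmX n = vecMulVec (cmv n) (cmv n) - 1 := by
  ext i j
  rw [Matrix.sub_apply, Matrix.sub_apply, cmX, diagonal_mul, mul_diagonal, vecMulVec_apply,
    one_apply]
  simp only [cmA, of_apply, cmv]
  by_cases h : i = j
  · subst h
    simp
  · have h1 : (x i : E (Fin n)) - x j ≠ 0 := sub_ne_zero.mpr fun e => h (x_injective n e)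
    rw [if_neg h]
    field_simp
    ring

theorem two (n : ℕ) : (2 : E (Fin n)) ≠ 0 := by
  have h : (2 : E (Fin n)) = algebraMap ℂ (E (Fin n)) 2 := by rw [map_ofNat]
  rw [h]
  exact (map_ne_zero _).mpr two_ne_zero

end CMX

theorem CMX_thm (h : Stmt_NDG) : Stmt_CMX := fun n =>
  ⟨CMX.skew n, CMX.symm n, CMX.comm n, CMX.two n, h n⟩

end Pool.Agent.NCM
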