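import Pool.Agent.NCM.Stmts

/-!
# The characteristic polynomial of `X` is defined over the field of the invariants
-/

open Matrix

namespace Pool.Agent.NCM

namespace CORE

variable {K : Type} [Field K] {n : ℕ}

/-- All entries lie in the subring `R`. -/
def IsDef (R : Subring K) (M : Matrix (Fin n) (Fin n) K) : Prop := ∀ i j, M i j ∈ R

theorem IsDef.mul {R : Subring K} {M N : Matrix (Fin n) (Fin n) K} (hM : IsDef R M)
    (hN : IsDef R N) : IsDef R (M * N) := by
  intro i j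
  rw [mul_apply]
  exact sum_mem fun k _ => mul_mem (hM i k) (hN k j)

theorem IsDef.one {R : Subring K} : IsDef R (1 : Matrix (Fin n) (Fin n) K) := by
  intro i j
  rw [one_apply]
  split_ifs
  · exact one_mem R
  · exact zero_mem R

theorem IsDef.pow {R : Subring K} {M : Matrix (Fin n) (Fin n) K} (hM : IsDef R M) (j : ℕ) :
    IsDef R (M ^ j) := by
  induction j with
  | zero => rw [pow_zero]; exact IsDef.one
  | succ j ih => rw [pow_succ]; exact ih.mul hM

theorem IsDef.trace {R : Subring K} {M : Matrix (Fin n) (Fin n) K} (hM : IsDef R M) :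
    M.trace ∈ R := by
  rw [Matrix.trace]
  exact sum_mem fun i _ => hM i i

theorem kry_apply (A : Matrix (Fin n) (Fin n) K) (v : Fin n → K) (i j : Fin n) :
    kry A v i j = ((A ^ (j : ℕ)) *ᵥ v) i := rfl

theorem kry_mulVec (A : Matrix (Fin n) (Fin n) K) (v q : Fin n → K) :
    kry A v *ᵥ q = (∑ i : Fin n, q i • A ^ (i : ℕ)) *ᵥ v := by
  rw [Matrix.sum_mulVec]
  ext k
  rw [Matrix.mulVec, dotProduct, Finset.sum_apply]
  refine Finset.sum_congr rfl fun i _ => ?_
  rw [kry_apply, smul_mulVec, Pi.smul_apply, smul_eq_mul, mul_comm]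

theorem mul_kry (M A : Matrix (Fin n) (Fin n) K) (v : Fin n → K) (i j : Fin n) :
    (M * kry A v) i j = (M *ᵥ ((A ^ (j : ℕ)) *ᵥ v)) i := rfl

/-- A matrix which commutes with `A` and kills the cyclic vector `v` vanishes. -/
theorem eq_zero_of_comm {A M : Matrix (Fin n) (Fin n) K} {v : Fin n → K}
    (hU : (kry A v).det ≠ 0) (hM : M * A = A * M) (hv : M *ᵥ v = 0) : M = 0 := by
  have hcomm : ∀ j : ℕ, M * A ^ j = A ^ j * M := by
    intro j
    exact (Commute.pow_right (show Commute M A from hM) j)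
  have h1 : M * kry A v = 0 := by
    ext i j
    rw [mul_kry, mulVec_mulVec, hcomm, ← mulVec_mulVec, hv, mulVec_zero]
    rfl
  have hu : IsUnit (kry A v).det := isUnit_iff_ne_zero.mpr hU
  calc M = M * (kry A v * (kry A v)⁻¹) := by rw [mul_nonsing_inv _ hu, mul_one]
    _ = (M * kry A v) * (kry A v)⁻¹ := by rw [mul_assoc]
    _ = 0 := by rw [h1, zero_mul]

/-- A retraction of `K` onto the image of `L`. -/
theorem exists_rho (K L : Type) [Field K] [Field L] [Algebra L K] :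
    ∃ ρ : K →+ K, (∀ a, ρ a ∈ (algebraMap L K).range) ∧
      (∀ c ∈ (algebraMap L K).range, ρ c = c) ∧
      (∀ a, ∀ c ∈ (algebraMap L K).range, ρ (a * c) = ρ a * c) := by
  have hker : LinearMap.ker (Algebra.linearMap L K) = ⊥ :=
    LinearMap.ker_eq_bot.mpr (algebraMap L K).injective
  obtain ⟨π, hπ⟩ := (Algebra.linearMap L K).exists_leftInverse_of_injective hker
  refine ⟨((Algebra.linearMap L K) ∘ₗ π).toAddMonoidHom, ?_, ?_, ?_⟩
  · intro a
    exact ⟨π a, rfl⟩
  · rintro _ ⟨c, rfl⟩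
    have : π (Algebra.linearMap L K c) = c := LinearMap.congr_fun hπ c
    change algebraMap L K (π (algebraMap L K c)) = _
    rw [show π (algebraMap L K c) = c from this]
  · rintro a _ ⟨c, rfl⟩
    change algebraMap L K (π (a * algebraMap L K c)) = algebraMap L K (π a) * algebraMap L K c
    rw [mul_comm a, ← Algebra.smul_def, map_smul, smul_eq_mul, map_mul, mul_comm]

section rho

variable {R : Subring K} {ρ : K →+ K} (hρ1 : ∀ a, ρ a ∈ R) (hρ2 : ∀ c ∈ R, ρ c = c)
  (hρ3 : ∀ a, ∀ c ∈ R, ρ (a * c) = ρ a * c)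

include hρ3 in
theorem map_mul_right (M : Matrix (Fin n) (Fin n) K) {C : Matrix (Fin n) (Fin n) K}
    (hC : IsDef R C) : (M * C).map ρ = M.map ρ * C := by
  ext i j
  rw [map_apply, mul_apply, mul_apply, map_sum]
  exact Finset.sum_congr rfl fun k _ => hρ3 _ _ (hC k j)

include hρ3 in
theorem map_mul_left (M : Matrix (Fin n) (Fin n) K) {C : Matrix (Fin n) (Fin n) K}
    (hC : IsDef R C) : (C * M).map ρ = C * M.map ρ := by
  ext i j
  rw [map_apply, mul_apply, mul_apply, map_sum]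
  refine Finset.sum_congr rfl fun k _ => ?_
  rw [map_apply, mul_comm, hρ3 _ _ (hC i k), mul_comm]

theorem trace_mapρ (M : Matrix (Fin n) (Fin n) K) : (M.map ρ).trace = ρ M.trace := by
  rw [Matrix.trace, Matrix.trace, map_sum]
  rfl

end rho

/-- The Gram matrix of the Krylov basis. -/
theorem gram (hT : Stmt_TRC) {A X : Matrix (Fin n) (Fin n) K} {v : Fin n → K}
    (h : CM A X v) (i j : Fin n) :
    ((kry A v)ᵀ * kry A v) i j = (-1) ^ (i : ℕ) * trace (A ^ ((i : ℕ) + j)) := by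
  have h1 : ((kry A v)ᵀ * kry A v) i j = ((A ^ (i : ℕ)) *ᵥ v) ⬝ᵥ ((A ^ (j : ℕ)) *ᵥ v) := rfl
  have h2 : (A ^ (i : ℕ))ᵀ = (-1 : K) ^ (i : ℕ) • A ^ (i : ℕ) := by
    rw [transpose_pow, h.skew, ← neg_one_smul K A, smul_pow]
  rw [h1, ← (hT K n A X v h ((i : ℕ) + j)).1, dotProduct_comm, dotProduct_mulVec,
    ← mulVec_transpose, h2, smul_mulVec, smul_dotProduct, smul_eq_mul, mulVec_mulVec, ← pow_add,
    dotProduct_comm]

/-- Uniqueness: a symmetric matrix which commutes with `A` and is orthogonal to the even powers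
of `A` vanishes. -/
theorem unique (hT : Stmt_TRC) {A X W : Matrix (Fin n) (Fin n) K} {v : Fin n → K}
    (h : CM A X v) (hW : W * A = A * W) (hs : Wᵀ = W)
    (ht : ∀ j : ℕ, Even j → j < n → trace (W * A ^ j) = 0) : W = 0 := by
  have hu : IsUnit (kry A v).det := isUnit_iff_ne_zero.mpr h.cyc
  have hWj : ∀ j : ℕ, W * A ^ j = A ^ j * W := fun j =>
    Commute.pow_right (show Commute W A from hW) j
  -- odd powers
  have hodd : ∀ j : ℕ, Odd j → trace (W * A ^ j) = 0 := by
    intro j hj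
    have h1 : trace (W * A ^ j) = - trace (W * A ^ j) := by
      conv_lhs => rw [← trace_transpose, transpose_mul, transpose_pow, h.skew, hs, hj.neg_pow,
        neg_mul, trace_neg, ← hWj]
    have h2 : (2 : K) * trace (W * A ^ j) = 0 := by linear_combination h1
    exact (mul_eq_zero.mp h2).resolve_left h.two
  have hall : ∀ j : ℕ, j < n → trace (W * A ^ j) = 0 := by
    intro j hj
    rcases Nat.even_or_odd j with he | ho
    · exact ht j he hj
    · exact hodd j ho
  -- `W` is a polynomial in `A`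
  set q : Fin n → K := (kry A v)⁻¹ *ᵥ (W *ᵥ v) with hq
  set Q : Matrix (Fin n) (Fin n) K := ∑ i : Fin n, q i • A ^ (i : ℕ) with hQ
  have hQv : Q *ᵥ v = W *ᵥ v := by
    rw [hQ, ← kry_mulVec, hq, mulVec_mulVec, mul_nonsing_inv _ hu, one_mulVec]
  have hQA : Q * A = A * Q := by
    rw [hQ, Finset.sum_mul, Finset.mul_sum]
    refine Finset.sum_congr rfl fun i _ => ?_
    rw [smul_mul_assoc, mul_smul_comm, ← pow_succ, ← pow_succ']
  have hWQ : W = Q := by
    have : W - Q = 0 := by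
      apply eq_zero_of_comm h.cyc
      · rw [sub_mul, mul_sub, hW, hQA]
      · rw [sub_mulVec, hQv, sub_self]
    exact sub_eq_zero.mp this
  -- pairing with the cyclic vector
  have hpair : ∀ j : ℕ, v ⬝ᵥ ((W * A ^ j) *ᵥ v) = trace (W * A ^ j) := by
    intro j
    rw [hWQ, hQ, Finset.sum_mul, sum_mulVec, dotProduct_sum, trace_sum]
    refine Finset.sum_congr rfl fun i _ => ?_
    rw [smul_mul_assoc, ← pow_add, smul_mulVec, dotProduct_smul, trace_smul,
      (hT K n A X v h ((i : ℕ) + j)).1]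
  have hWv : (kry A v)ᵀ *ᵥ (W *ᵥ v) = 0 := by
    ext j
    have h1 : ((kry A v)ᵀ *ᵥ (W *ᵥ v)) j = (A ^ (j : ℕ) *ᵥ v) ⬝ᵥ (W *ᵥ v) := rfl
    have h2 : (A ^ (j : ℕ) *ᵥ v) ⬝ᵥ (W *ᵥ v) = v ⬝ᵥ ((W * A ^ (j : ℕ)) *ᵥ v) := by
      rw [← mulVec_mulVec, dotProduct_mulVec v W, ← mulVec_transpose, hs, dotProduct_comm]
    rw [h1, h2, hpair, hall j j.2]
    rfl
  have hu' : IsUnit ((kry A v)ᵀ).det := by rwa [det_transpose]
  have hWv0 : W *ᵥ v = 0 := by
    calc W *ᵥ v = (((kry A v)ᵀ)⁻¹ * (kry A v)ᵀ) *ᵥ (W *ᵥ v) := by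
          rw [nonsing_inv_mul _ hu', one_mulVec]
      _ = ((kry A v)ᵀ)⁻¹ *ᵥ ((kry A v)ᵀ *ᵥ (W *ᵥ v)) := (mulVec_mulVec _ _ _).symm
      _ = 0 := by rw [hWv, mulVec_zero]
  exact eq_zero_of_comm h.cyc hW hWv0

end CORE

open CORE in
theorem CORE_thm (hT : Stmt_TRC) : Stmt_CORE := by
  intro K L _ _ _ n A X v h hC hX j
  set R := (algebraMap L K).range with hR
  obtain ⟨ρ, hρ1, hρ2, hρ3⟩ := exists_rho K L
  have hu : IsUnit (kry A v).det := isUnit_iff_ne_zero.mpr h.cyc
  set U := kry A v with hU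
  set C := U⁻¹ * A * U with hCdef
  have hUC : A * U = U * C := by
    rw [hCdef, ← mul_assoc, ← mul_assoc, mul_nonsing_inv _ hu, one_mul]
  have hCdef' : IsDef R C := hC
  have hpow : ∀ i : ℕ, U⁻¹ * A ^ i * U = C ^ i := by
    intro i
    induction i with
    | zero => rw [pow_zero, pow_zero, mul_one, nonsing_inv_mul _ hu]
    | succ i ih =>
      rw [pow_succ, pow_succ, ← ih]
      calc U⁻¹ * (A ^ i * A) * U = U⁻¹ * A ^ i * (A * U) := by simp only [mul_assoc]
        _ = U⁻¹ * A ^ i * U * C := by rw [hUC]; simp only [mul_assoc]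
  have hconj : ∀ N : Matrix (Fin n) (Fin n) K, trace (U⁻¹ * N * U) = trace N := by
    intro N
    rw [trace_mul_comm, ← mul_assoc, mul_nonsing_inv _ hu, one_mul]
  have htr : ∀ i : ℕ, trace (A ^ i) ∈ R := by
    intro i
    have h1 : trace (A ^ i) = trace (C ^ i) := by
      rw [← hpow, trace_mul_comm, ← mul_assoc, mul_nonsing_inv _ hu, one_mul]
    rw [h1]
    exact (hCdef'.pow i).trace
  set G := Uᵀ * U with hG
  have hGdef : IsDef R G := by
    intro i j
    rw [hG, hU, gram hT h]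
    refine mul_mem (pow_mem (neg_mem (one_mem R)) _) (htr _)
  set Y := U⁻¹ * X * U with hY
  -- the commutator
  set S := U⁻¹ * (vecMulVec v v - 1) * U with hS
  have hYC : Y * C - C * Y = S := by
    rw [hS, ← h.comm, hY, hCdef]
    have e1 : U⁻¹ * X * U * (U⁻¹ * A * U) = U⁻¹ * (X * A) * U := by
      calc U⁻¹ * X * U * (U⁻¹ * A * U) = U⁻¹ * X * (U * U⁻¹) * A * U := by simp only [mul_assoc]
        _ = U⁻¹ * (X * A) * U := by rw [mul_nonsing_inv _ hu, mul_one]; simp only [mul_assoc]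
    have e2 : U⁻¹ * A * U * (U⁻¹ * X * U) = U⁻¹ * (A * X) * U := by
      calc U⁻¹ * A * U * (U⁻¹ * X * U) = U⁻¹ * A * (U * U⁻¹) * X * U := by simp only [mul_assoc]
        _ = U⁻¹ * (A * X) * U := by rw [mul_nonsing_inv _ hu, mul_one]; simp only [mul_assoc]
    rw [e1, e2, mul_sub, sub_mul]
  have hSdef : IsDef R S := by
    intro i j
    have hn : 0 < n := lt_of_le_of_lt (Nat.zero_le _) i.2
    have hv : U *ᵥ (Pi.single ⟨0, hn⟩ 1) = v := by
      ext k
      rw [mulVec_single_one]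
      change (A ^ 0 *ᵥ v) k = v k
      rw [pow_zero, one_mulVec]
    have hv' : U⁻¹ *ᵥ v = Pi.single ⟨0, hn⟩ 1 := by
      conv_lhs => rw [← hv]
      rw [mulVec_mulVec, nonsing_inv_mul _ hu, one_mulVec]
    have hS' : S = vecMulVec (U⁻¹ *ᵥ v) (v ᵥ* U) - 1 := by
      rw [hS, mul_sub, sub_mul, mul_one, nonsing_inv_mul _ hu, mul_vecMulVec, vecMulVec_mul]
    rw [hS', Matrix.sub_apply, vecMulVec_apply, hv']
    refine sub_mem (mul_mem ?_ ?_) (IsDef.one i j)
    · rw [Pi.single_apply]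
      split_ifs
      · exact one_mem R
      · exact zero_mem R
    · have h1 : (v ᵥ* U) j = v ⬝ᵥ (A ^ (j : ℕ) *ᵥ v) := rfl
      rw [h1, (hT K n A X v h j).1]
      exact htr _
  -- symmetry
  have hGY : (G * Y)ᵀ = G * Y := by
    have h1 : G * Y = Uᵀ * X * U := by
      rw [hG, hY]
      calc Uᵀ * U * (U⁻¹ * X * U) = Uᵀ * (U * U⁻¹) * X * U := by simp only [mul_assoc]
        _ = Uᵀ * X * U := by rw [mul_nonsing_inv _ hu, mul_one]
    rw [h1, transpose_mul, transpose_mul, transpose_transpose, h.symm, mul_assoc]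
  have hYt : ∀ i : ℕ, trace (Y * C ^ i) = trace (X * A ^ i) := by
    intro i
    have h1 : Y * C ^ i = U⁻¹ * (X * A ^ i) * U := by
      rw [hY, ← hpow]
      calc U⁻¹ * X * U * (U⁻¹ * A ^ i * U) = U⁻¹ * X * (U * U⁻¹) * A ^ i * U := by
            simp only [mul_assoc]
        _ = U⁻¹ * (X * A ^ i) * U := by rw [mul_nonsing_inv _ hu, mul_one]; simp only [mul_assoc]
    rw [h1, trace_mul_comm, ← mul_assoc, mul_nonsing_inv _ hu, one_mul]
  -- the retract
  set Z := Y - Y.map ρ with hZ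
  have hZC : Z * C = C * Z := by
    have h1 := congrArg (fun M : Matrix (Fin n) (Fin n) K => M.map ρ) hYC
    have h2 : (Y * C - C * Y).map ρ = Y.map ρ * C - C * Y.map ρ := by
      rw [← map_mul_right hρ3 Y hCdef', ← map_mul_left hρ3 Y hCdef']
      ext a b
      simp
    have h3 : S.map ρ = S := by
      ext a b
      exact hρ2 _ (hSdef a b)
    simp only [h2, h3] at h1
    have h4 : (Y - Y.map ρ) * C - C * (Y - Y.map ρ) = 0 := by
      have e : (Y - Y.map ρ) * C - C * (Y - Y.map ρ) =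
          (Y * C - C * Y) - (Y.map ρ * C - C * Y.map ρ) := by noncomm_ring
      rw [e, hYC, h1, sub_self]
    exact sub_eq_zero.mp h4
  have hGZ : (G * Z)ᵀ = G * Z := by
    have h1 : (G * Y.map ρ)ᵀ = G * Y.map ρ := by
      rw [← map_mul_left hρ3 Y hGdef, ← transpose_map, hGY]
    rw [hZ, mul_sub, transpose_sub, hGY, h1]
  have hZt : ∀ i : ℕ, Even i → i < n → trace (Z * C ^ i) = 0 := by
    intro i hi hin
    rw [hZ, sub_mul, trace_sub, ← map_mul_right hρ3 Y (hCdef'.pow i), trace_mapρ, hYt,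
      hρ2 _ (hX i hi hin), sub_self]
  -- back to `W`
  have hZ0 : Z = 0 := by
    have hA' : A = U * C * U⁻¹ := by
      rw [← hUC, mul_assoc, mul_nonsing_inv _ hu, mul_one]
    have hW0 : U * Z * U⁻¹ = 0 := by
      apply unique hT h
      · rw [hA']
        calc U * Z * U⁻¹ * (U * C * U⁻¹) = U * Z * (U⁻¹ * U) * C * U⁻¹ := by
              simp only [mul_assoc]
          _ = U * (Z * C) * U⁻¹ := by rw [nonsing_inv_mul _ hu, mul_one]; simp only [mul_assoc]
          _ = U * (C * Z) * U⁻¹ := by rw [hZC]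
          _ = U * C * (U⁻¹ * U) * Z * U⁻¹ := by
              rw [nonsing_inv_mul _ hu, mul_one]; simp only [mul_assoc]
          _ = U * C * U⁻¹ * (U * Z * U⁻¹) := by simp only [mul_assoc]
      · have hut : IsUnit (Uᵀ).det := by rwa [det_transpose]
        have e1 : Uᵀ * (U * Z * U⁻¹) * U = G * Z := by
          calc Uᵀ * (U * Z * U⁻¹) * U = Uᵀ * U * Z * (U⁻¹ * U) := by simp only [mul_assoc]
            _ = G * Z := by rw [nonsing_inv_mul _ hu, mul_one]
        have e2 : Uᵀ * (U * Z * U⁻¹)ᵀ * U = G * Z := by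
          rw [← hGZ, ← e1, transpose_mul (Uᵀ * (U * Z * U⁻¹)) U, transpose_mul Uᵀ (U * Z * U⁻¹),
            transpose_transpose, mul_assoc]
        have e3 : ∀ M : Matrix (Fin n) (Fin n) K, M = (Uᵀ)⁻¹ * (Uᵀ * M * U) * U⁻¹ := by
          intro M
          calc M = ((Uᵀ)⁻¹ * Uᵀ) * M * (U * U⁻¹) := by
                rw [nonsing_inv_mul _ hut, mul_nonsing_inv _ hu, one_mul, mul_one]
            _ = (Uᵀ)⁻¹ * (Uᵀ * M * U) * U⁻¹ := by simp only [mul_assoc]
        rw [e3 (U * Z * U⁻¹)ᵀ, e2]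
        conv_rhs => rw [e3 (U * Z * U⁻¹), e1]
      · intro i hi hin
        rw [← hZt i hi hin, ← hpow]
        have e1 : Z * (U⁻¹ * A ^ i * U) = U⁻¹ * (U * Z * U⁻¹ * A ^ i) * U := by
          calc Z * (U⁻¹ * A ^ i * U) = (U⁻¹ * U) * Z * (U⁻¹ * A ^ i * U) := by
                rw [nonsing_inv_mul _ hu, one_mul]
            _ = U⁻¹ * (U * Z * U⁻¹ * A ^ i) * U := by simp only [mul_assoc]
        rw [e1, hconj]
    calc Z = (U⁻¹ * U) * Z * (U⁻¹ * U) := by rw [nonsing_inv_mul _ hu, one_mul, mul_one]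
      _ = U⁻¹ * (U * Z * U⁻¹) * U := by simp only [mul_assoc]
      _ = 0 := by rw [hW0, mul_zero, zero_mul]
  have hYR : ∀ a b, Y a b ∈ R := by
    intro a b
    have h1 : Y a b = ρ (Y a b) := by
      have := congrFun (congrFun (sub_eq_zero.mp hZ0) a) b
      exact this
    rw [h1]
    exact hρ1 _
  choose Y' hY' using hYR
  have hYmap : Y = (Matrix.of Y').map (algebraMap L K) := by
    ext a b
    exact (hY' a b).symm
  have hchar : X.charpoly = Y.charpoly := by
    have hu2 : IsUnit U := (isUnit_iff_isUnit_det U).mpr hu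
    obtain ⟨V, hV⟩ := hu2
    have h1 := charpoly_units_conj' V X
    rw [hY, ← hV, ← h1]
  rw [hchar, hYmap, charpoly_map, Polynomial.coeff_map]
  exact ⟨_, rfl⟩

end Pool.Agent.NCM
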