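import Pool.Agent.NCM.Defs

/-!
# Noether's problem for alternating groups: statements of the modules
-/

open Matrix Pool.Agent.Lib_helper20.Noether

namespace Pool.Agent.NCM

/-- TRC: `vᵀ A^j v = Tr A^j`, and both vanish for odd `j`. -/
def Stmt_TRC : Prop :=
  ∀ (K : Type) [Field K] (n : ℕ) (A X : Matrix (Fin n) (Fin n) K) (v : Fin n → K),
    CM A X v → ∀ j : ℕ, v ⬝ᵥ (A ^ j *ᵥ v) = trace (A ^ j) ∧ (Odd j → trace (A ^ j) = 0)

/-- COMP: the matrix of `A` in the basis `v, A v, ...` is a companion matrix, and half of the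
entries of its last column vanish. -/
def Stmt_COMP : Prop :=
  ∀ (K : Type) [Field K] (n : ℕ) (A X : Matrix (Fin n) (Fin n) K) (v : Fin n → K),
    CM A X v →
      (∀ i j : Fin n, ((kry A v)⁻¹ * A * kry A v) i j =
        if (j : ℕ) + 1 = n then cvec A v i else if (i : ℕ) = j + 1 then 1 else 0) ∧
      (∀ i : Fin n, Odd (n + (i : ℕ)) → cvec A v i = 0)

/-- CORE: if the matrix of `A` in the basis `v, A v, ...` and the traces `Tr (X A^j)` (`j` even,
`j < n`) are defined over `L`, then so is the characteristic polynomial of `X`. -/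
def Stmt_CORE : Prop :=
  ∀ (K L : Type) [Field K] [Field L] [Algebra L K] (n : ℕ) (A X : Matrix (Fin n) (Fin n) K)
    (v : Fin n → K), CM A X v →
    (∀ i j, ((kry A v)⁻¹ * A * kry A v) i j ∈ (algebraMap L K).range) →
    (∀ j : ℕ, Even j → j < n → trace (X * A ^ j) ∈ (algebraMap L K).range) →
    ∀ j : ℕ, X.charpoly.coeff j ∈ (algebraMap L K).range

/-- SQ: the determinant of an alternating matrix is a square. -/
def Stmt_SQ : Prop :=
  ∀ (F ι : Type) [Field F] [Fintype ι] [DecidableEq ι] (M : Matrix ι ι F),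
    Mᵀ = -M → (∀ i, M i i = 0) → IsSquare M.det

/-- DEV: the determinant of `A` for even `n`. -/
def Stmt_DEV : Prop :=
  ∀ (K : Type) [Field K] (n : ℕ) (A X : Matrix (Fin n) (Fin n) K) (v : Fin n → K)
    (h0 : 0 < n), CM A X v → Even n → A.det = - cvec A v ⟨0, h0⟩

/-- DOD: the determinant of the bordered matrix for odd `n`. -/
def Stmt_DOD : Prop :=
  ∀ (K : Type) [Field K] (n : ℕ) (A X : Matrix (Fin n) (Fin n) K) (v : Fin n → K)
    (h1 : 1 < n), CM A X v → Odd n →
      (fromBlocks A (replicateCol Unit v) (-replicateRow Unit v) 0).det = - cvec A v ⟨1, h1⟩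

/-- PF: a square root of `- cvec A v ⟨n % 2, _⟩` of the form `r / det (kry A v)`, `r` in `L`. -/
def Stmt_PF : Prop :=
  ∀ (K L : Type) [Field K] [Field L] [Algebra L K] (n : ℕ) (A X : Matrix (Fin n) (Fin n) K)
    (v : Fin n → K) (h1 : n % 2 < n), CM A X v →
    (∀ i j, ((kry A v)⁻¹ * A * kry A v) i j ∈ (algebraMap L K).range) →
    ∃ r : L, (algebraMap L K r / (kry A v).det) ^ 2 = - cvec A v ⟨n % 2, h1⟩

/-- NDG: nondegeneracy for the matrix `(1 / (x_i - x_j))`. -/
def Stmt_NDG : Prop := ∀ n : ℕ, (kry (cmA n) (cmv n)).det ≠ 0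

/-- CMX: the pair `(cmX, cmA)` is a Calogero-Moser pair (from NDG). -/
def Stmt_CMX : Prop := ∀ n : ℕ, CM (cmA n) (cmX n) (cmv n)

/-- SYF: symmetric rational functions. -/
def Stmt_SYF : Prop :=
  ∀ (n : ℕ) (M : IntermediateField ℂ (E (Fin n))),
    (∀ j : ℕ, (∏ i : Fin n, (Polynomial.X - Polynomial.C (x i : E (Fin n)))).coeff j ∈ M) →
      invField ⊤ ≤ M

/-- EQV: behaviour under permutations of the variables. -/
def Stmt_EQV : Prop :=
  ∀ (n : ℕ) (σ : Equiv.Perm (Fin n)),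
    perm σ (kry (cmA n) (cmv n)).det =
      (Equiv.Perm.sign σ : ℤ) • (kry (cmA n) (cmv n)).det ∧
    (∀ i, perm σ (cvec (cmA n) (cmv n) i) = cvec (cmA n) (cmv n) i) ∧
    (∀ j : ℕ, perm σ (trace (cmX n * cmA n ^ j)) = trace (cmX n * cmA n ^ j))

/-- FIN: the theorem. -/
def Stmt_FIN : Prop :=
  ∀ n : ℕ, PurelyTranscendental (invField (alternatingGroup (Fin n)))

end Pool.Agent.NCM
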