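import Mathlib
import Pool.Agent.NCM.Stmts

/-!
# DEV: the determinant of `A` for even `n`
-/

open Matrix Pool.Agent.Lib_helper20.Noether

namespace Pool.Agent.NCM

theorem DEV_thm (h : Stmt_COMP) : Stmt_DEV := by
  intro K _ n A X v h0 hCM hn
  obtain ⟨hC, -⟩ := h K n A X v hCM
  obtain ⟨m, rfl⟩ : ∃ m, n = m + 1 := ⟨n - 1, by omega⟩
  have hU : IsUnit (kry A v).det := isUnit_iff_ne_zero.2 hCM.cyc
  have hdet : ((kry A v)⁻¹ * A * kry A v).det = A.det := by
    rw [det_mul, det_mul, det_nonsing_inv]
    have h1 : Ring.inverse (kry A v).det * (kry A v).det = 1 := Ring.inverse_mul_cancel _ hU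
    calc Ring.inverse (kry A v).det * A.det * (kry A v).det
        = (Ring.inverse (kry A v).det * (kry A v).det) * A.det := by ring
      _ = A.det := by rw [h1, one_mul]
  rw [← hdet, det_succ_row_zero, Finset.sum_eq_single (Fin.last m)]
  · have h2 : (((kry A v)⁻¹ * A * kry A v).submatrix Fin.succ (Fin.last m).succAbove) = 1 := by
      ext i j
      rw [submatrix_apply, hC, Fin.succAbove_last]
      have hj : ((Fin.castSucc j : Fin (m + 1)) : ℕ) + 1 ≠ m + 1 := by
        have := j.2
        simp only [Fin.val_castSucc]
        omega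
      rw [if_neg hj, one_apply]
      refine if_congr ?_ rfl rfl
      simp only [Fin.val_succ, Fin.val_castSucc]
      constructor
      · intro h3
        exact Fin.ext (by omega)
      · intro h3
        rw [h3]
    rw [h2, det_one, mul_one, hC, if_pos (by simp), Fin.val_last]
    have hm : Odd m := by
      rcases Nat.even_or_odd m with h3 | h3
      · exact absurd hn (by rw [Nat.even_add_one]; exact not_not.2 h3)
      · exact h3
    rw [hm.neg_one_pow, neg_one_mul]
    rfl
  · intro j _ hj
    rw [hC]
    have h3 : (j : ℕ) + 1 ≠ m + 1 := by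
      intro h4
      exact hj (Fin.ext (by rw [Fin.val_last]; omega))
    rw [if_neg h3, if_neg (by simp), mul_zero, zero_mul]
  · intro h3
    exact absurd (Finset.mem_univ _) h3

end Pool.Agent.NCM
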