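import Pool.Agent.NCM.Stmts

/-!
# DOD: the determinant of the bordered matrix for odd `n`
-/

open Matrix Pool.Agent.Lib_helper20.Noether

namespace Pool.Agent.NCM

namespace DOD

variable {K : Type} [Field K]

theorem kry_mulVec {n : ℕ} (A : Matrix (Fin n) (Fin n) K) (v : Fin n → K) (w : Fin n → K) :
    kry A v *ᵥ w = ∑ j : Fin n, w j • (A ^ (j : ℕ) *ᵥ v) := by
  funext i
  rw [Finset.sum_apply]
  simp only [Matrix.mulVec, dotProduct, kry, Matrix.of_apply, Pi.smul_apply, smul_eq_mul]
  exact Finset.sum_congr rfl fun j _ => mul_comm _ _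

theorem kry_single {n : ℕ} (A : Matrix (Fin n) (Fin n) K) (v : Fin n → K) (j : Fin n) :
    kry A v *ᵥ Pi.single j 1 = A ^ (j : ℕ) *ᵥ v := by
  rw [Matrix.mulVec_single_one]
  rfl

theorem inv_pow {n : ℕ} {A : Matrix (Fin n) (Fin n) K} {v : Fin n → K}
    (hU : IsUnit (kry A v).det) (j : Fin n) :
    (kry A v)⁻¹ *ᵥ (A ^ (j : ℕ) *ᵥ v) = Pi.single j 1 := by
  rw [← kry_single, Matrix.mulVec_mulVec, Matrix.nonsing_inv_mul _ hU, Matrix.one_mulVec]

theorem kry_cvec {n : ℕ} {A : Matrix (Fin n) (Fin n) K} {v : Fin n → K}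
    (hU : IsUnit (kry A v).det) : kry A v *ᵥ cvec A v = A ^ n *ᵥ v := by
  unfold cvec
  rw [Matrix.mulVec_mulVec, Matrix.mul_nonsing_inv _ hU, Matrix.one_mulVec]

/-- The determinant of an alternating matrix of odd size vanishes. -/
theorem det_odd {n : ℕ} {A : Matrix (Fin n) (Fin n) K} (hA : Aᵀ = -A) (h2 : (2 : K) ≠ 0)
    (hn : Odd n) : A.det = 0 := by
  have h1 : A.det = -A.det := by
    conv_lhs => rw [← Matrix.det_transpose, hA, Matrix.det_neg, Fintype.card_fin, hn.neg_one_pow]
    ring
  have h3 : (2 : K) * A.det = 0 := by linear_combination h1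
  exact (mul_eq_zero.mp h3).resolve_left h2

/-- The bordered determinant. -/
theorem det_border {n : ℕ} (A : Matrix (Fin n) (Fin n) K) (v : Fin n → K) :
    (fromBlocks A (replicateCol Unit v) (-replicateRow Unit v) 0).det =
      (A + vecMulVec v v).det - A.det := by
  set B := replicateCol Unit v with hB
  set C := -replicateRow Unit v with hC
  have h1 : (fromBlocks A B C 1).det = (A + vecMulVec v v).det := by
    rw [Matrix.det_fromBlocks_one₂₂, hC, Matrix.mul_neg, sub_neg_eq_add,
      Matrix.vecMulVec_eq Unit]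
  have h2 : (fromBlocks A B (0 : Matrix Unit (Fin n) K) (1 : Matrix Unit Unit K)).det =
      A.det := by
    rw [Matrix.det_fromBlocks_zero₂₁, Matrix.det_one, mul_one]
  have h3 := Matrix.det_updateRow_add (fromBlocks A B C (0 : Matrix Unit Unit K)) (Sum.inr ())
    (Sum.elim (C ()) 0 : Fin n ⊕ Unit → K) (Sum.elim 0 1 : Fin n ⊕ Unit → K)
  have h4 : (fromBlocks A B C (0 : Matrix Unit Unit K)).updateRow (Sum.inr ())
      ((Sum.elim (C ()) 0 : Fin n ⊕ Unit → K) + (Sum.elim 0 1 : Fin n ⊕ Unit → K)) =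
        fromBlocks A B C 1 := by
    ext i j
    rcases i with i | i
    · rw [Matrix.updateRow_ne (by simp)]
      rcases j with j | j <;> rfl
    · obtain rfl : i = () := rfl
      rw [Matrix.updateRow_self]
      rcases j with j | j
      · simp
      · simp
  have h5 : (fromBlocks A B C (0 : Matrix Unit Unit K)).updateRow (Sum.inr ())
      (Sum.elim (C ()) 0 : Fin n ⊕ Unit → K) = fromBlocks A B C 0 := by
    ext i j
    rcases i with i | i
    · rw [Matrix.updateRow_ne (by simp)]
    · obtain rfl : i = () := rfl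
      rw [Matrix.updateRow_self]
      rcases j with j | j
      · simp
      · simp
  have h6 : (fromBlocks A B C (0 : Matrix Unit Unit K)).updateRow (Sum.inr ())
      (Sum.elim 0 1 : Fin n ⊕ Unit → K) =
        fromBlocks A B (0 : Matrix Unit (Fin n) K) (1 : Matrix Unit Unit K) := by
    ext i j
    rcases i with i | i
    · rw [Matrix.updateRow_ne (by simp)]
      rcases j with j | j <;> rfl
    · obtain rfl : i = () := rfl
      rw [Matrix.updateRow_self]
      rcases j with j | j
      · simp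
      · simp
  rw [h4, h5, h6, h1, h2] at h3
  linear_combination -h3

/-- The determinant of a companion matrix with an additional first row. -/
theorem det_comp {m : ℕ} (M : Matrix (Fin (m + 1)) (Fin (m + 1)) K) (t c : Fin (m + 1) → K)
    (h0 : ∀ j, M 0 j = t j)
    (hs : ∀ (i : Fin m) (j : Fin (m + 1)), M i.succ j =
      (if j = i.castSucc then 1 else 0) + if j = Fin.last m then c i.succ else 0) :
    M.det = (-1) ^ m * (t (Fin.last m) - ∑ i : Fin m, c i.succ * t i.castSucc) := by
  set s := t (Fin.last m) - ∑ i : Fin m, c i.succ * t i.castSucc with hsd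
  let d : Fin (m + 1) → K := Fin.cons 1 (fun i : Fin m => - t i.castSucc)
  have h1 := Matrix.det_updateRow_sum M 0 d
  have hd0 : d 0 = 1 := rfl
  have hds : ∀ i : Fin m, d i.succ = - t i.castSucc := fun i => rfl
  rw [hd0, one_smul] at h1
  have h2 : (∑ k, d k • M k) = Pi.single (Fin.last m) s := by
    funext j
    rw [Finset.sum_apply, Fin.sum_univ_succ]
    simp only [hd0, hds, Pi.smul_apply, smul_eq_mul, one_mul, h0, hs]
    refine Fin.lastCases ?_ (fun j => ?_) j
    · rw [Pi.single_eq_same, hsd]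
      simp only [if_true]
      have h3 : ∀ i : Fin m, (Fin.last m = i.castSucc) = False := fun i =>
        eq_false (Fin.castSucc_lt_last i).ne'
      simp only [h3, if_false, zero_add]
      rw [sub_eq_add_neg, ← Finset.sum_neg_distrib]
      congr 1
      exact Finset.sum_congr rfl fun i _ => by ring
    · rw [Pi.single_eq_of_ne (Fin.castSucc_lt_last j).ne]
      simp only [(Fin.castSucc_lt_last j).ne, if_false, add_zero, Fin.castSucc_inj]
      rw [Finset.sum_eq_single j]
      · simp
      · intro b _ hb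
        rw [if_neg (Ne.symm hb), mul_zero]
      · simp
  rw [h2, Matrix.det_succ_row_zero] at h1
  rw [← h1, Finset.sum_eq_single (Fin.last m)]
  · rw [Matrix.updateRow_self, Pi.single_eq_same, Fin.val_last]
    have h4 : (M.updateRow 0 (Pi.single (Fin.last m) s)).submatrix Fin.succ
        (Fin.last m).succAbove = 1 := by
      ext i j
      rw [Matrix.submatrix_apply, Matrix.updateRow_ne (Fin.succ_ne_zero i),
        Fin.succAbove_last, hs, if_neg (Fin.castSucc_lt_last j).ne, add_zero, Matrix.one_apply]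
      simp only [Fin.castSucc_inj, eq_comm]
    rw [h4, Matrix.det_one, mul_one]
  · intro j _ hj
    rw [Matrix.updateRow_self, Pi.single_eq_of_ne hj]
    ring
  · intro h
    exact absurd (Finset.mem_univ _) h

end DOD

open DOD in
theorem DOD_thm (h1 : Stmt_TRC) (h2 : Stmt_COMP) : Stmt_DOD := by
  intro K _ n A X v hn hCM hodd
  obtain ⟨m, rfl⟩ : ∃ m, n = m + 2 := ⟨n - 2, by omega⟩
  have hU : IsUnit (kry A v).det := isUnit_iff_ne_zero.mpr hCM.cyc
  obtain ⟨hC, hc⟩ := h2 K (m + 2) A X v hCM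
  have htr := fun j => (h1 K (m + 2) A X v hCM j).1
  set U := kry A v with hUd
  set c := cvec A v with hcd
  have hc0 : c 0 = 0 := hc 0 (by simpa using hodd)
  let t : Fin (m + 2) → K := fun j => v ⬝ᵥ (A ^ (j : ℕ) *ᵥ v)
  rw [det_border, det_odd hCM.skew hCM.two hodd, sub_zero]
  -- the conjugate matrix
  have hconj : (U⁻¹ * (A + vecMulVec v v) * U).det = (A + vecMulVec v v).det :=
    Matrix.det_conj_of_mul_eq_one (Matrix.nonsing_inv_mul _ hU) (Matrix.mul_nonsing_inv _ hU)
  have hv : U⁻¹ *ᵥ v = Pi.single 0 1 := by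
    have h3 := inv_pow hU (0 : Fin (m + 2))
    rw [Fin.val_zero, pow_zero, Matrix.one_mulVec] at h3
    exact h3
  have hvU : v ᵥ* U = t := by
    funext j
    change v ⬝ᵥ (fun i => U i j) = v ⬝ᵥ (A ^ (j : ℕ) *ᵥ v)
    rfl
  have hM : U⁻¹ * (A + vecMulVec v v) * U = U⁻¹ * A * U + vecMulVec (Pi.single 0 1) t := by
    rw [Matrix.mul_add, Matrix.add_mul, Matrix.mul_vecMulVec, Matrix.vecMulVec_mul, hv, hvU]
  rw [← hconj, hM, det_comp (m := m + 1) _ t c]
  · -- the trace
    let Q : Matrix (Fin (m + 2)) (Fin (m + 2)) K :=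
      A ^ (m + 1) - ∑ i : Fin (m + 1), c i.succ • A ^ (i : ℕ)
    have hQt : trace Q = t (Fin.last (m + 1)) - ∑ i : Fin (m + 1), c i.succ * t i.castSucc := by
      change trace (A ^ (m + 1) - ∑ i : Fin (m + 1), c i.succ • A ^ (i : ℕ)) = _
      rw [Matrix.trace_sub, Matrix.trace_sum]
      simp only [Matrix.trace_smul, smul_eq_mul, ← htr]
      rfl
    have hQv : Q *ᵥ v = A ^ (m + 1) *ᵥ v - ∑ i : Fin (m + 1), c i.succ • (A ^ (i : ℕ) *ᵥ v) := by
      change (A ^ (m + 1) - ∑ i : Fin (m + 1), c i.succ • A ^ (i : ℕ)) *ᵥ v = _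
      rw [Matrix.sub_mulVec, Matrix.sum_mulVec]
      simp only [Matrix.smul_mulVec]
    have hAQ : A *ᵥ (Q *ᵥ v) = 0 := by
      have h3 := kry_cvec (A := A) (v := v) hU
      rw [kry_mulVec, Fin.sum_univ_succ, ← hcd, hc0, zero_smul, zero_add] at h3
      rw [hQv, Matrix.mulVec_sub, Matrix.mulVec_sum, Matrix.mulVec_mulVec, ← pow_succ',
        ← h3, sub_eq_zero]
      refine Finset.sum_congr rfl fun i _ => ?_
      rw [Matrix.mulVec_smul, Matrix.mulVec_mulVec, ← pow_succ', Fin.val_succ]
    have hcomm : Commute A Q :=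
      ((Commute.refl A).pow_right _).sub_right
        (Commute.sum_right _ _ _ fun i _ => ((Commute.refl A).pow_right _).smul_right _)
    have hQA : ∀ j : Fin (m + 1), Q *ᵥ (A ^ (j.succ : ℕ) *ᵥ v) = 0 := by
      intro j
      rw [Matrix.mulVec_mulVec, ← (hcomm.pow_left _).eq, Fin.val_succ, pow_succ,
        Matrix.mul_assoc, ← Matrix.mulVec_mulVec, ← Matrix.mulVec_mulVec, hAQ,
        Matrix.mulVec_zero]
    have hTr : trace Q = - c 1 := by
      have h3 : trace Q = trace (U⁻¹ * Q * U) := by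
        rw [Matrix.trace_mul_cycle, Matrix.mul_nonsing_inv _ hU, Matrix.one_mul]
      have h4 : ∀ j, (U⁻¹ * Q * U) j j = (U⁻¹ *ᵥ (Q *ᵥ (A ^ (j : ℕ) *ᵥ v))) j := by
        intro j
        rw [← kry_single A v j, Matrix.mulVec_mulVec, Matrix.mulVec_mulVec,
          Matrix.mulVec_single_one]
        rfl
      rw [h3, Matrix.trace, Fin.sum_univ_succ]
      simp only [Matrix.diag_apply]
      rw [h4, Finset.sum_eq_zero (fun j _ => by rw [h4, hQA, Matrix.mulVec_zero]; rfl),
        add_zero, Fin.val_zero, pow_zero, Matrix.one_mulVec, hQv, Matrix.mulVec_sub,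
        Matrix.mulVec_sum]
      have h5 := inv_pow hU (Fin.last (m + 1))
      rw [Fin.val_last] at h5
      rw [h5, Pi.sub_apply, Finset.sum_apply, Fin.sum_univ_succ,
        Pi.single_eq_of_ne (Fin.last_pos).ne]
      have h6 : ∀ i : Fin (m + 1), U⁻¹ *ᵥ (c i.succ • (A ^ (i : ℕ) *ᵥ v)) =
          c i.succ • Pi.single i.castSucc 1 := by
        intro i
        rw [Matrix.mulVec_smul]
        exact congrArg _ (inv_pow hU i.castSucc)
      simp only [h6, Pi.smul_apply, smul_eq_mul]
      rw [Finset.sum_eq_zero (fun i _ => ?_)]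
      · simp
      · rw [Pi.single_eq_of_ne, mul_zero]
        exact (Fin.castSucc_pos (Fin.succ_pos i)).ne
    rw [← hQt, hTr]
    have h7 : Even (m + 1) := by
      rcases hodd with ⟨k, hk⟩
      exact ⟨k, by omega⟩
    rw [h7.neg_one_pow, one_mul]
    rfl
  · intro j
    rw [Matrix.add_apply, hC, Matrix.vecMulVec_apply, Pi.single_eq_same, one_mul]
    have h8 : ((if (j : ℕ) + 1 = m + 2 then c 0 else
        if ((0 : Fin (m + 2)) : ℕ) = (j : ℕ) + 1 then 1 else 0) : K) = 0 := by
      split_ifs with h9 h10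
      · exact hc0
      · simp at h10
      · rfl
    rw [h8, zero_add]
  · intro i j
    rw [Matrix.add_apply, hC, Matrix.vecMulVec_apply, Pi.single_eq_of_ne (Fin.succ_ne_zero i),
      zero_mul, add_zero]
    refine Fin.lastCases ?_ (fun j => ?_) j
    · rw [if_pos (by simp), if_neg (Fin.castSucc_lt_last i).ne', if_pos rfl, zero_add]
    · have hj := j.2
      rw [if_neg (by simp only [Fin.val_castSucc]; omega), if_neg (Fin.castSucc_lt_last j).ne,
        add_zero]
      simp only [Fin.val_succ, Fin.val_castSucc, add_left_inj, Fin.ext_iff, eq_comm]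

end Pool.Agent.NCM
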