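import Pool.Agent.Lib_helper20.Noether.Defs

/-!
# Calogero-Moser pairs and Noether's problem for alternating groups: definitions

For `X = diag (x_i)` and `A = (1 / (x_i - x_j))` one has `X A - A X = v vᵀ - 1` with
`v = (1, ..., 1)`, `X` is symmetric and `A` is alternating.
-/

open Matrix Pool.Agent.Lib_helper20.Noether

namespace Pool.Agent.NCM

/-- The matrix with columns `v, A v, ..., A ^ (n - 1) v`. -/
noncomputable def kry {K : Type} [Field K] {n : ℕ} (A : Matrix (Fin n) (Fin n) K)
    (v : Fin n → K) : Matrix (Fin n) (Fin n) K :=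
  Matrix.of fun i j => ((A ^ (j : ℕ)) *ᵥ v) i

/-- The coordinates of `A ^ n v` with respect to `v, A v, ..., A ^ (n - 1) v`. -/
noncomputable def cvec {K : Type} [Field K] {n : ℕ} (A : Matrix (Fin n) (Fin n) K)
    (v : Fin n → K) : Fin n → K :=
  (kry A v)⁻¹ *ᵥ (A ^ n *ᵥ v)

/-- Calogero-Moser pairs `(X, A)` with `X` symmetric and `A` alternating, such that `v` is a
cyclic vector of `A`. -/
structure CM {K : Type} [Field K] {n : ℕ} (A X : Matrix (Fin n) (Fin n) K)
    (v : Fin n → K) : Prop where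
  skew : Aᵀ = -A
  symm : Xᵀ = X
  comm : X * A - A * X = vecMulVec v v - 1
  two : (2 : K) ≠ 0
  cyc : (kry A v).det ≠ 0

/-- The matrix `(1 / (x_i - x_j))` over the field of rational functions. -/
noncomputable def cmA (n : ℕ) : Matrix (Fin n) (Fin n) (E (Fin n)) :=
  Matrix.of fun i j => (x i - x j)⁻¹

/-- The matrix `diag (x_i)`. -/
noncomputable def cmX (n : ℕ) : Matrix (Fin n) (Fin n) (E (Fin n)) :=
  Matrix.diagonal fun i => x i

/-- The vector `(1, ..., 1)`. -/
noncomputable def cmv (n : ℕ) : Fin n → E (Fin n) := fun _ => 1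

end Pool.Agent.NCM
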