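import Pool.Agent.NCM.Stmts
import Pool.Agent.Lib_helper20.Noether.ARTIN

/-!
# Behaviour of the Calogero-Moser pair under permutations of the variables
-/

open Matrix Pool.Agent.Lib_helper20.Noether

namespace Pool.Agent.NCM

namespace EQV

variable {n : ℕ}

theorem map_A (σ : Equiv.Perm (Fin n)) :
    (cmA n).map (perm σ : E (Fin n) →+* E (Fin n)) = (cmA n).submatrix σ σ := by
  ext i j
  simp [cmA, ARTIN.perm_x]

theorem map_X (σ : Equiv.Perm (Fin n)) :
    (cmX n).map (perm σ : E (Fin n) →+* E (Fin n)) = (cmX n).submatrix σ σ := by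
  ext i j
  rw [Matrix.map_apply, submatrix_apply]
  by_cases h : i = j
  · subst h
    simp [cmX, ARTIN.perm_x]
  · have h' : σ i ≠ σ j := fun h1 => h (σ.injective h1)
    rw [cmX, diagonal_apply_ne _ h, diagonal_apply_ne _ h', map_zero]

theorem map_Apow (σ : Equiv.Perm (Fin n)) (k : ℕ) :
    (cmA n ^ k).map (perm σ : E (Fin n) →+* E (Fin n)) = (cmA n ^ k).submatrix σ σ := by
  induction k with
  | zero =>
    rw [pow_zero, Matrix.map_one _ (map_zero _) (map_one _), submatrix_one_equiv]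
  | succ k ih =>
    rw [pow_succ, Matrix.map_mul, ih, map_A, submatrix_mul_equiv]

theorem map_Av (σ : Equiv.Perm (Fin n)) (k : ℕ) (i : Fin n) :
    perm σ ((cmA n ^ k *ᵥ cmv n) i) = (cmA n ^ k *ᵥ cmv n) (σ i) := by
  have h := RingHom.map_mulVec (perm σ : E (Fin n) →+* E (Fin n)) (cmA n ^ k) (cmv n) i
  have h2 : ((perm σ : E (Fin n) →+* E (Fin n)) : E (Fin n) → E (Fin n)) ∘ cmv n = cmv n := by
    funext j
    simp [cmv]
  rw [h2, map_Apow, submatrix_mulVec_equiv] at h
  have h3 : cmv n ∘ (σ.symm : Fin n → Fin n) = cmv n := rfl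
  rw [h3] at h
  exact h

theorem map_kry (σ : Equiv.Perm (Fin n)) :
    (kry (cmA n) (cmv n)).map (perm σ : E (Fin n) →+* E (Fin n)) =
      (kry (cmA n) (cmv n)).submatrix σ id := by
  ext i j
  exact map_Av σ j i

theorem map_inv {K : Type} [Field K] (φ : K →+* K) (M : Matrix (Fin n) (Fin n) K) :
    (M⁻¹).map φ = (M.map φ)⁻¹ := by
  have h1 : (M.map φ).det = φ M.det := (φ.map_det M).symm
  have h2 : (M.map φ).adjugate = M.adjugate.map φ := (φ.map_adjugate M).symm
  rw [inv_def, inv_def, h1, h2, Ring.inverse_eq_inv', ← map_inv₀]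
  ext i j
  simp

end EQV

open EQV in
theorem EQV_thm : Stmt_EQV := by
  intro n σ
  refine ⟨?_, ?_, ?_⟩
  · have h := RingHom.map_det (perm σ : E (Fin n) →+* E (Fin n)) (kry (cmA n) (cmv n))
    have h2 : ((perm σ : E (Fin n) →+* E (Fin n))).mapMatrix (kry (cmA n) (cmv n)) =
        (kry (cmA n) (cmv n)).submatrix σ id := map_kry σ
    rw [h2, det_permute] at h
    rw [zsmul_eq_mul]
    exact h
  · intro i
    have h := RingHom.map_mulVec (perm σ : E (Fin n) →+* E (Fin n)) (kry (cmA n) (cmv n))⁻¹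
      (cmA n ^ n *ᵥ cmv n) i
    have h2 : ((perm σ : E (Fin n) →+* E (Fin n)) : E (Fin n) → E (Fin n)) ∘
        (cmA n ^ n *ᵥ cmv n) = (cmA n ^ n *ᵥ cmv n) ∘ σ := by
      funext j
      exact map_Av σ n j
    have h3 : ((kry (cmA n) (cmv n)).submatrix σ id)⁻¹ =
        (kry (cmA n) (cmv n))⁻¹.submatrix (Equiv.refl (Fin n)) σ :=
      inv_submatrix_equiv (kry (cmA n) (cmv n)) σ (Equiv.refl (Fin n))
    rw [h2, EQV.map_inv, map_kry, h3, submatrix_mulVec_equiv] at h
    have h4 : ((cmA n ^ n *ᵥ cmv n) ∘ σ) ∘ (σ.symm : Fin n → Fin n) = cmA n ^ n *ᵥ cmv n := by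
      funext j
      simp
    rw [h4] at h
    exact h
  · intro j
    have h := AddMonoidHom.map_trace (perm σ : E (Fin n) →+* E (Fin n)) (cmX n * cmA n ^ j)
    rw [Matrix.map_mul, map_X, map_Apow, submatrix_mul_equiv] at h
    have h2 : trace ((cmX n * cmA n ^ j).submatrix σ σ) = trace (cmX n * cmA n ^ j) := by
      simp only [trace, diag_apply, submatrix_apply]
      exact Equiv.sum_comp σ fun i => (cmX n * cmA n ^ j) i i
    rw [h2] at h
    exact h

end Pool.Agent.NCM
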