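import Pool.Agent.NCM.Stmts

/-!
# NDG: the vectors `v, A v, ..., A^(n-1) v` are independent
-/

open Matrix Pool.Agent.Lib_helper20.Noether

namespace Pool.Agent.NCM

namespace NDG

/-- The matrix `(1 / (b_i - b_j))`. -/
noncomputable def Ab {K : Type} [Field K] {n : ℕ} (b : Fin n → K) : Matrix (Fin n) (Fin n) K :=
  Matrix.of fun i j => (b i - b j)⁻¹

theorem Ab_skew {K : Type} [Field K] {n : ℕ} (b : Fin n → K) : (Ab b)ᵀ = -Ab b := by
  ext i j
  change (b j - b i)⁻¹ = -(b i - b j)⁻¹
  rw [← inv_neg, neg_sub]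

/-- The commutation relation applied to a vector. -/
theorem comm_apply {K : Type} [Field K] {n : ℕ} (b : Fin n → K) (hb : Function.Injective b)
    (u : Fin n → K) (h : ∑ j, u j = 0) (i : Fin n) :
    b i * (Ab b *ᵥ u) i - (Ab b *ᵥ fun j => b j * u j) i = - u i := by
  have h1 : b i * (Ab b *ᵥ u) i - (Ab b *ᵥ fun j => b j * u j) i =
      ∑ j, (if i = j then 0 else u j) := by
    simp only [mulVec, dotProduct, Ab, of_apply]
    rw [Finset.mul_sum, ← Finset.sum_sub_distrib]
    refine Finset.sum_congr rfl fun j _ => ?_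
    by_cases hij : i = j
    · rw [if_pos hij, hij]
      simp
    · rw [if_neg hij]
      have h2 : b i - b j ≠ 0 := sub_ne_zero.2 fun h => hij (hb h)
      field_simp
  have h3 : ∑ j, (if i = j then 0 else u j) = ∑ j, u j - u i := by
    have h4 : ∀ j, (if i = j then 0 else u j) = u j - (if i = j then u j else 0) := by
      intro j
      split_ifs <;> simp
    simp_rw [h4]
    rw [Finset.sum_sub_distrib, Finset.sum_ite_eq]
    simp
  rw [h1, h3, h, zero_sub]

open scoped ComplexOrder in
/-- At a real point. -/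
theorem real_point {n : ℕ} (b : Fin n → ℂ) (hb : Function.Injective b)
    (hr : ∀ i, star (b i) = b i) : (kry (Ab b) (fun _ => 1)).det ≠ 0 := by
  classical
  intro h0
  obtain ⟨w, hw0, hw⟩ := Matrix.exists_vecMul_eq_zero_iff.2 h0
  set A := Ab b with hA
  have hskew : Aᵀ = -A := Ab_skew b
  have hpow : ∀ j : ℕ, (A ^ j)ᵀ = (-1) ^ j • A ^ j := by
    intro j
    rw [transpose_pow, hskew]
    rcases Nat.even_or_odd j with hj | hj
    · rw [hj.neg_pow, hj.neg_one_pow, one_smul]
    · rw [hj.neg_pow, hj.neg_one_pow]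
      simp
  -- the invariant subspace
  let U : Submodule ℂ (Fin n → ℂ) :=
    { carrier := {u | ∀ j : ℕ, ∑ i, (A ^ j *ᵥ u) i = 0}
      add_mem' := by
        intro a c ha hc j
        simp only [mulVec_add, Pi.add_apply, Finset.sum_add_distrib]
        rw [ha j, hc j, add_zero]
      zero_mem' := by
        intro j
        simp
      smul_mem' := by
        intro c a ha j
        simp only [mulVec_smul, Pi.smul_apply, smul_eq_mul]
        rw [← Finset.mul_sum, ha j, mul_zero] }
  have hAU : ∀ u ∈ U, (Matrix.toLin' A) u ∈ U := by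
    intro u hu j
    rw [Matrix.toLin'_apply, mulVec_mulVec, ← pow_succ]
    exact hu (j + 1)
  have hsum : ∀ (j : ℕ) (u : Fin n → ℂ), ∑ i, (A ^ j *ᵥ u) i =
      (-1) ^ j * (u ⬝ᵥ (A ^ j *ᵥ fun _ => 1)) := by
    intro j u
    have h1 : ∑ i, (A ^ j *ᵥ u) i = (fun _ => (1 : ℂ)) ⬝ᵥ (A ^ j *ᵥ u) := by
      simp [dotProduct]
    rw [h1, dotProduct_mulVec, ← mulVec_transpose, hpow j, smul_mulVec, smul_dotProduct,
      dotProduct_comm]
    simp
  have hwU : w ∈ U := by
    have h1 : ∀ j : Fin n, ∑ i, (A ^ (j : ℕ) *ᵥ w) i = 0 := by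
      intro j
      have h2 := congrFun hw j
      rw [hsum]
      have h3 : w ⬝ᵥ (A ^ (j : ℕ) *ᵥ fun _ => 1) = 0 := by
        have h4 : (w ᵥ* kry A fun _ => 1) j = w ⬝ᵥ (A ^ (j : ℕ) *ᵥ fun _ => 1) := by
          simp only [vecMul, kry, dotProduct, of_apply]
        rw [← h4]
        exact h2
      rw [h3, mul_zero]
    intro k
    rw [Matrix.pow_eq_aeval_mod_charpoly A k, Polynomial.aeval_eq_sum_range' (n := n)]
    · rw [Matrix.sum_mulVec]
      simp only [Finset.sum_apply, smul_mulVec, Pi.smul_apply, smul_eq_mul]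
      rw [Finset.sum_comm]
      refine Finset.sum_eq_zero fun j hj => ?_
      rw [← Finset.mul_sum, h1 ⟨j, Finset.mem_range.1 hj⟩, mul_zero]
    · have hmonic := Matrix.charpoly_monic A
      have hdeg : A.charpoly.natDegree = n := by
        rw [Matrix.charpoly_natDegree_eq_dim, Fintype.card_fin]
      have hn : 0 < n := by
        by_contra hc
        have : n = 0 := by omega
        subst this
        exact hw0 (Subsingleton.elim _ _)
      have h5 := Polynomial.natDegree_modByMonic_lt (Polynomial.X ^ k) hmonic (by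
        intro h6
        rw [h6, Polynomial.natDegree_one] at hdeg
        omega)
      rw [hdeg] at h5
      exact h5
  -- an eigenvector
  have : Nontrivial U := ⟨⟨⟨w, hwU⟩, 0, fun h => hw0 (congrArg Subtype.val h)⟩⟩
  obtain ⟨l, hl⟩ := Module.End.exists_eigenvalue ((Matrix.toLin' A).restrict hAU)
  obtain ⟨u', hu'⟩ := hl.exists_hasEigenvector
  set u : Fin n → ℂ := u'.1 with hu
  have hu0 : u ≠ 0 := fun h => hu'.2 (Subtype.ext h)
  have hAu : A *ᵥ u = l • u := by
    have h1 := hu'.apply_eq_smul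
    have h2 := congrArg Subtype.val h1
    exact h2
  have huU : u ∈ U := u'.2
  have hsu : ∑ i, u i = 0 := by
    have := huU 0
    simpa using this
  -- the adjoint
  have hAstar : A *ᵥ (star u) = star l • star u := by
    have h1 : ∀ i j, star (A i j) = A i j := by
      intro i j
      simp only [hA, Ab, of_apply, star_inv₀, star_sub, hr]
    have h2 : A *ᵥ (star u) = star (A *ᵥ u) := by
      funext i
      simp only [mulVec, dotProduct, Pi.star_apply, star_sum, star_mul', h1]
    rw [h2, hAu]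
    funext i
    simp
  have hadj : ∀ y : Fin n → ℂ, star u ⬝ᵥ (A *ᵥ y) = - (star l * (star u ⬝ᵥ y)) := by
    intro y
    rw [dotProduct_mulVec, ← mulVec_transpose, hskew, neg_mulVec, hAstar, neg_dotProduct,
      smul_dotProduct, smul_eq_mul]
  have hnorm : star u ⬝ᵥ u ≠ 0 := by
    intro h
    exact hu0 (dotProduct_star_self_eq_zero.1 h)
  have himag : l + star l = 0 := by
    have h1 := hadj u
    rw [hAu, dotProduct_smul, smul_eq_mul] at h1
    have h2 : (l + star l) * (star u ⬝ᵥ u) = 0 := by linear_combination h1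
    exact (mul_eq_zero.1 h2).resolve_right hnorm
  have hc : ∀ i, b i * (A *ᵥ u) i - (A *ᵥ fun j => b j * u j) i = - u i :=
    comm_apply b hb u hsu
  have h1 : star u ⬝ᵥ (fun i => b i * (A *ᵥ u) i - (A *ᵥ fun j => b j * u j) i) =
      - (star u ⬝ᵥ u) := by
    have : (fun i => b i * (A *ᵥ u) i - (A *ᵥ fun j => b j * u j) i) = -u := funext hc
    rw [this, dotProduct_neg]
  have h2 : (fun i => b i * (A *ᵥ u) i - (A *ᵥ fun j => b j * u j) i) =
      l • (fun j => b j * u j) - A *ᵥ fun j => b j * u j := by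
    funext i
    rw [hAu]
    simp only [Pi.smul_apply, Pi.sub_apply, smul_eq_mul]
    ring
  rw [h2, dotProduct_sub, dotProduct_smul, smul_eq_mul, hadj] at h1
  apply hnorm
  have h3 : (l + star l) * (star u ⬝ᵥ fun j => b j * u j) = - (star u ⬝ᵥ u) := by
    linear_combination h1
  rw [himag, zero_mul] at h3
  linear_combination h3

/-- The off-diagonal pairs. -/
noncomputable def offd (n : ℕ) : Finset (Fin n × Fin n) := Finset.univ.filter fun p => p.1 ≠ p.2

/-- The product of all differences of variables. -/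
noncomputable def VV (n : ℕ) : MvPolynomial (Fin n) ℂ :=
  ∏ p ∈ offd n, (MvPolynomial.X p.1 - MvPolynomial.X p.2)

/-- The matrix `(1 / (x_i - x_j))` without its denominators. -/
noncomputable def BB (n : ℕ) : Matrix (Fin n) (Fin n) (MvPolynomial (Fin n) ℂ) :=
  Matrix.of fun i j => if i = j then 0 else
    ∏ p ∈ (offd n).erase (i, j), (MvPolynomial.X p.1 - MvPolynomial.X p.2)

/-- The polynomial determinant. -/
noncomputable def QQ (n : ℕ) : MvPolynomial (Fin n) ℂ :=
  (Matrix.of fun i j : Fin n => ((BB n ^ (j : ℕ)) *ᵥ fun _ => 1) i).det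

theorem map_BB {F : Type} [Field F] (n : ℕ) (φ : MvPolynomial (Fin n) ℂ →+* F)
    (hφ : Function.Injective fun i : Fin n => φ (MvPolynomial.X i)) :
    φ.mapMatrix (BB n) = φ (VV n) • Ab fun i : Fin n => φ (MvPolynomial.X i) := by
  classical
  refine Matrix.ext fun i j => ?_
  change φ (if i = j then 0 else
    ∏ p ∈ (offd n).erase (i, j), (MvPolynomial.X p.1 - MvPolynomial.X p.2)) =
      φ (VV n) * (φ (MvPolynomial.X i) - φ (MvPolynomial.X j))⁻¹
  by_cases hij : i = j
  · rw [if_pos hij, hij]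
    simp
  · rw [if_neg hij]
    have h2 : φ (MvPolynomial.X i) - φ (MvPolynomial.X j) ≠ 0 :=
      sub_ne_zero.2 fun h => hij (hφ h)
    have hmem : (i, j) ∈ offd n := by
      simp [offd, hij]
    have h3 : VV n = (MvPolynomial.X i - MvPolynomial.X j) *
        ∏ p ∈ (offd n).erase (i, j), (MvPolynomial.X p.1 - MvPolynomial.X p.2) := by
      rw [VV, ← Finset.mul_prod_erase _ _ hmem]
    rw [h3, map_mul, map_sub]
    field_simp

theorem map_QQ {F : Type} [Field F] (n : ℕ) (φ : MvPolynomial (Fin n) ℂ →+* F)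
    (hφ : Function.Injective fun i : Fin n => φ (MvPolynomial.X i)) :
    φ (QQ n) = (kry (Ab fun i : Fin n => φ (MvPolynomial.X i)) fun _ => 1).det *
      ∏ j : Fin n, φ (VV n) ^ (j : ℕ) := by
  classical
  have h1 : φ.mapMatrix (Matrix.of fun i j : Fin n => ((BB n ^ (j : ℕ)) *ᵥ fun _ => 1) i) =
      kry (Ab fun i : Fin n => φ (MvPolynomial.X i)) (fun _ => 1) *
        Matrix.diagonal fun j : Fin n => φ (VV n) ^ (j : ℕ) := by
    refine Matrix.ext fun i j => ?_
    rw [Matrix.mul_diagonal]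
    change φ (((BB n ^ (j : ℕ)) *ᵥ fun _ => 1) i) =
      (((Ab fun i : Fin n => φ (MvPolynomial.X i)) ^ (j : ℕ)) *ᵥ fun _ => 1) i *
        φ (VV n) ^ (j : ℕ)
    have h2 : φ (((BB n ^ (j : ℕ)) *ᵥ fun _ => 1) i) =
        (φ.mapMatrix (BB n ^ (j : ℕ)) *ᵥ fun _ => 1) i := by
      simp only [mulVec, dotProduct, map_sum, map_mul, map_one, RingHom.mapMatrix_apply,
        Matrix.map_apply]
    rw [h2, map_pow, map_BB n φ hφ, smul_pow, smul_mulVec]
    simp only [Pi.smul_apply, smul_eq_mul]
    ring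
  rw [QQ, RingHom.map_det, h1, Matrix.det_mul, Matrix.det_diagonal]

theorem QQ_ne (n : ℕ) : QQ n ≠ 0 := by
  classical
  have hinj : Function.Injective fun i : Fin n => ((i : ℕ) : ℂ) := by
    intro i j h
    exact Fin.ext (Nat.cast_injective h)
  have h1 := map_QQ n (MvPolynomial.eval fun i : Fin n => ((i : ℕ) : ℂ)) (by
    simpa using hinj)
  have h2 : (fun i : Fin n => (MvPolynomial.eval fun i : Fin n => ((i : ℕ) : ℂ))
      (MvPolynomial.X i)) = fun i : Fin n => ((i : ℕ) : ℂ) := by
    funext i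
    simp
  rw [h2] at h1
  intro h0
  rw [h0, map_zero] at h1
  rcases mul_eq_zero.1 h1.symm with h3 | h3
  · exact real_point _ hinj (fun i => by simp) h3
  · obtain ⟨j, _, hj⟩ := Finset.prod_eq_zero_iff.1 h3
    have h4 : (MvPolynomial.eval fun i : Fin n => ((i : ℕ) : ℂ)) (VV n) = 0 :=
      eq_zero_of_pow_eq_zero hj
    rw [VV, map_prod] at h4
    obtain ⟨p, hp, hp0⟩ := Finset.prod_eq_zero_iff.1 h4
    rw [map_sub, MvPolynomial.eval_X, MvPolynomial.eval_X, sub_eq_zero] at hp0
    have h5 : p.1 ≠ p.2 := by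
      simpa [offd] using hp
    exact h5 (hinj hp0)

end NDG

theorem NDG_thm : Stmt_NDG := by
  classical
  intro n
  have hx : Function.Injective fun i : Fin n =>
      algebraMap (MvPolynomial (Fin n) ℂ) (E (Fin n)) (MvPolynomial.X i) := by
    intro i j h
    exact MvPolynomial.X_injective (IsFractionRing.injective (MvPolynomial (Fin n) ℂ)
      (E (Fin n)) h)
  have h1 := NDG.map_QQ n (algebraMap (MvPolynomial (Fin n) ℂ) (E (Fin n))) hx
  have h2 : algebraMap (MvPolynomial (Fin n) ℂ) (E (Fin n)) (NDG.QQ n) ≠ 0 := by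
    intro h
    exact NDG.QQ_ne n (IsFractionRing.injective (MvPolynomial (Fin n) ℂ) (E (Fin n))
      (by rw [h, map_zero]))
  rw [h1] at h2
  exact left_ne_zero_of_mul h2

end Pool.Agent.NCM
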