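import Pool.Agent.NCM.Stmts

/-!
# PF: a square root of `- cvec A v ⟨n % 2, _⟩`
-/

set_option autoImplicit false

open Matrix Pool.Agent.Lib_helper20.Noether

namespace Pool.Agent.NCM

namespace PF

section

variable {K : Type} [Field K] {n : ℕ} {A X : Matrix (Fin n) (Fin n) K} {v : Fin n → K}

theorem pow_T (hA : Aᵀ = -A) (j : ℕ) : (A ^ j)ᵀ = (-1 : K) ^ j • A ^ j := by
  rw [transpose_pow, hA]
  rcases Nat.even_or_odd j with h | h
  · rw [h.neg_pow, h.neg_one_pow, one_smul]
  · rw [h.neg_pow, h.neg_one_pow, neg_smul, one_smul]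

/-- The entries of `Uᵀ M U` for the matrix `U` with columns `A ^ j v`. -/
theorem kry_entry (A M : Matrix (Fin n) (Fin n) K) (v : Fin n → K) (i j : Fin n) :
    ((kry A v)ᵀ * M * kry A v) i j =
      v ⬝ᵥ (((A ^ (i : ℕ))ᵀ * M * A ^ (j : ℕ)) *ᵥ v) := by
  have h1 : ((kry A v)ᵀ * M * kry A v) i j =
      (A ^ (i : ℕ) *ᵥ v) ⬝ᵥ (M *ᵥ (A ^ (j : ℕ) *ᵥ v)) := by
    rw [Matrix.mul_assoc, Matrix.mul_apply]
    rfl
  rw [h1, Matrix.mul_assoc, ← Matrix.mulVec_mulVec v (A ^ (i : ℕ))ᵀ,
    Matrix.dotProduct_mulVec v, Matrix.vecMul_transpose, Matrix.mulVec_mulVec]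

theorem S_entry (h : Stmt_TRC) (hC : CM A X v) (i j : Fin n) :
    ((kry A v)ᵀ * A * kry A v) i j = (-1) ^ (i : ℕ) * trace (A ^ ((i : ℕ) + j + 1)) := by
  rw [kry_entry, pow_T hC.skew, smul_mul_assoc, smul_mul_assoc, Matrix.smul_mulVec,
    dotProduct_smul, smul_eq_mul]
  have h1 : A ^ (i : ℕ) * A * A ^ (j : ℕ) = A ^ ((i : ℕ) + j + 1) := by
    rw [← pow_succ, ← pow_add]
    congr 1
    ring
  rw [h1, (h K n A X v hC _).1]

/-- `vᵀ U`. -/
theorem v_kry (h : Stmt_TRC) (hC : CM A X v) (j : Fin n) :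
    (v ᵥ* kry A v) j = trace (A ^ (j : ℕ)) := by
  rw [← (h K n A X v hC _).1]
  rfl

/-- `Uᵀ v`. -/
theorem kryT_v (h : Stmt_TRC) (hC : CM A X v) (j : Fin n) :
    ((kry A v)ᵀ *ᵥ v) j = trace (A ^ (j : ℕ)) := by
  rw [Matrix.mulVec_transpose, v_kry h hC]

end

end PF

open PF in
/-- PF: a square root of `- cvec A v ⟨n % 2, _⟩` of the form `r / det (kry A v)`, `r` in `L`. -/
theorem PF_thm (h1 : Stmt_TRC) (h2 : Stmt_SQ) (h3 : Stmt_DEV) (h4 : Stmt_DOD) : Stmt_PF := by
  classical
  intro K L _ _ _ n A X v hn hC hL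
  have hU := hC.cyc
  have hUu : IsUnit (kry A v) := (Matrix.isUnit_iff_isUnit_det _).mpr (isUnit_iff_ne_zero.mpr hU)
  -- the companion matrix over `L`
  choose c hc using hL
  have hcL : (kry A v)⁻¹ * A * kry A v = (Matrix.of c).map (algebraMap L K) := by
    ext i j
    rw [← hc i j]
    rfl
  have htr : ∀ j : ℕ, trace (A ^ j) = algebraMap L K (trace ((Matrix.of c) ^ j)) := by
    intro j
    have e1 : ((kry A v)⁻¹ * A * kry A v) ^ j = (kry A v)⁻¹ * A ^ j * kry A v := by
      induction j with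
      | zero => rw [pow_zero, pow_zero, Matrix.mul_one,
          Matrix.nonsing_inv_mul _ (isUnit_iff_ne_zero.mpr hU)]
      | succ j ih =>
        rw [pow_succ, ih, pow_succ]
        have e2 : (kry A v)⁻¹ * A ^ j * kry A v * ((kry A v)⁻¹ * A * kry A v) =
            (kry A v)⁻¹ * A ^ j * (kry A v * (kry A v)⁻¹) * A * kry A v := by
          simp only [Matrix.mul_assoc]
        rw [e2, Matrix.mul_nonsing_inv _ (isUnit_iff_ne_zero.mpr hU), Matrix.mul_one]
        simp only [Matrix.mul_assoc]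
    have e3 : trace (A ^ j) = trace (((kry A v)⁻¹ * A * kry A v) ^ j) := by
      rw [e1, Matrix.trace_mul_comm, ← Matrix.mul_assoc,
        Matrix.mul_nonsing_inv _ (isUnit_iff_ne_zero.mpr hU), Matrix.one_mul]
    rw [e3, hcL]
    have e4 : ((Matrix.of c).map (algebraMap L K)) ^ j =
        ((Matrix.of c) ^ j).map (algebraMap L K) := by
      have := map_pow ((algebraMap L K).mapMatrix) (Matrix.of c) j
      simpa using this.symm
    rw [e4, trace, trace, map_sum]
    rfl
  -- the alternating matrix over `L`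
  set t : ℕ → L := fun j => trace ((Matrix.of c) ^ j) with ht
  set S : Matrix (Fin n) (Fin n) L :=
    Matrix.of fun i j => (-1) ^ (i : ℕ) * t ((i : ℕ) + j + 1) with hS
  have hSm : S.map (algebraMap L K) = (kry A v)ᵀ * A * kry A v := by
    ext i j
    rw [S_entry h1 hC, htr]
    simp [hS, ht]
  have hinj := (algebraMap L K).injective
  have hSK : ((kry A v)ᵀ * A * kry A v)ᵀ = -((kry A v)ᵀ * A * kry A v) := by
    rw [Matrix.transpose_mul, Matrix.transpose_mul, Matrix.transpose_transpose, hC.skew,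
      Matrix.neg_mul, Matrix.mul_neg, Matrix.mul_assoc]
  have hST : Sᵀ = -S := by
    apply Matrix.map_injective hinj
    change Sᵀ.map (algebraMap L K) = (-S).map (algebraMap L K)
    have e1 : Sᵀ.map (algebraMap L K) = (S.map (algebraMap L K))ᵀ := rfl
    have e2 : (-S).map (algebraMap L K) = -(S.map (algebraMap L K)) := by
      ext i j
      simp
    rw [e1, e2, hSm, hSK]
  have hS0 : ∀ i, S i i = 0 := by
    intro i
    have e1 := congrFun (congrFun hST i) i
    rw [Matrix.transpose_apply, Matrix.neg_apply] at e1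
    have e2 : (2 : L) ≠ 0 := by
      intro h
      apply hC.two
      have h5 := congrArg (algebraMap L K) h
      rwa [map_ofNat, map_zero] at h5
    have e3 : (2 : L) * S i i = 0 := by linear_combination e1
    exact (mul_eq_zero.mp e3).resolve_left e2
  have hdet : ∀ M : Matrix (Fin n) (Fin n) K, ((kry A v)ᵀ * M * kry A v).det =
      (kry A v).det ^ 2 * M.det := by
    intro M
    rw [Matrix.det_mul, Matrix.det_mul, Matrix.det_transpose]
    ring
  rcases Nat.even_or_odd n with hev | hod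
  · have hn0 : n % 2 = 0 := Nat.even_iff.mp hev
    have hpos : 0 < n := by omega
    obtain ⟨r, hr⟩ := h2 L (Fin n) S hST hS0
    refine ⟨r, ?_⟩
    have e1 : algebraMap L K S.det = (kry A v).det ^ 2 * A.det := by
      rw [← hdet, ← hSm, ← RingHom.mapMatrix_apply, RingHom.map_det]
    rw [hr, map_mul, h3 K n A X v hpos hC hev] at e1
    have e2 : (⟨n % 2, hn⟩ : Fin n) = ⟨0, hpos⟩ := Fin.ext hn0
    rw [e2, div_pow, div_eq_iff (pow_ne_zero 2 hU)]
    linear_combination e1
  · have hn1 : n % 2 = 1 := Nat.odd_iff.mp hod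
    have hlt : 1 < n := by omega
    set S' : Matrix (Fin n ⊕ Unit) (Fin n ⊕ Unit) L :=
      fromBlocks S (replicateCol Unit fun i : Fin n => t i)
        (-replicateRow Unit fun i : Fin n => t i) 0 with hS'
    have hS'T : S'ᵀ = -S' := by
      rw [hS', fromBlocks_transpose, hST, fromBlocks_neg]
      congr 1
      · ext i j
        simp
      · ext i j
        simp
    have hS'0 : ∀ i, S' i i = 0 := by
      rintro (i | i)
      · exact hS0 i
      · rfl
    obtain ⟨r, hr⟩ := h2 L (Fin n ⊕ Unit) S' hS'T hS'0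
    refine ⟨r, ?_⟩
    have e0 : S'.map (algebraMap L K) =
        (fromBlocks (kry A v) 0 0 (1 : Matrix Unit Unit K))ᵀ *
          fromBlocks A (replicateCol Unit v) (-replicateRow Unit v) 0 *
          fromBlocks (kry A v) 0 0 (1 : Matrix Unit Unit K) := by
      rw [hS', fromBlocks_map, fromBlocks_transpose, fromBlocks_multiply, fromBlocks_multiply]
      simp only [Matrix.transpose_zero, Matrix.zero_mul, Matrix.mul_zero, add_zero, zero_add,
        Matrix.transpose_one, Matrix.one_mul, Matrix.mul_one]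
      rw [hSm]
      congr 1
      · ext i j
        change algebraMap L K (t i) = ((kry A v)ᵀ *ᵥ v) i
        rw [kryT_v h1 hC, htr]
      · ext i j
        change algebraMap L K (-(t j)) = _
        rw [map_neg, Matrix.neg_mul, Matrix.neg_apply]
        congr 1
        change _ = (v ᵥ* kry A v) j
        rw [v_kry h1 hC, htr]
      · ext i j
        simp
    have e1 : algebraMap L K S'.det = (kry A v).det ^ 2 *
        (fromBlocks A (replicateCol Unit v) (-replicateRow Unit v) 0).det := by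
      rw [RingHom.map_det, RingHom.mapMatrix_apply, e0, Matrix.det_mul, Matrix.det_mul,
        Matrix.det_transpose, Matrix.det_fromBlocks_zero₂₁, Matrix.det_one]
      ring
    rw [hr, map_mul, h4 K n A X v hlt hC hod] at e1
    have e2 : (⟨n % 2, hn⟩ : Fin n) = ⟨1, hlt⟩ := Fin.ext hn1
    rw [e2, div_pow, div_eq_iff (pow_ne_zero 2 hU)]
    linear_combination e1

end Pool.Agent.NCM
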