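import Pool.Agent.NCM.Stmts

/-!
# The determinant of an alternating matrix over a field is a square
-/

set_option autoImplicit false

open Matrix

namespace Pool.Agent.NCM

namespace SQ

theorem alt_schur {F ι : Type} [Field F] [Fintype ι] [DecidableEq ι] (m : F)
    (B : Matrix (Fin 2) ι F) (D : Matrix ι ι F) (hD : Dᵀ = -D) (hD0 : ∀ i, D i i = 0) :
    let S := D - (-Bᵀ) * !![0, -m⁻¹; m⁻¹, 0] * B
    Sᵀ = -S ∧ ∀ i, S i i = 0 := by
  intro S
  have hS : ∀ i j, S i j = D i j + (B 1 i * m⁻¹ * B 0 j - B 0 i * m⁻¹ * B 1 j) := by
    intro i j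
    simp [S, Matrix.mul_apply, Fin.sum_univ_two]
    ring
  have hD' : ∀ i j, D j i = - D i j := by
    intro i j
    have := congrFun (congrFun hD i) j
    simpa using this
  constructor
  · ext i j
    rw [transpose_apply, neg_apply, hS, hS, hD' i j]
    ring
  · intro i
    rw [hS, hD0]
    ring

theorem main (N : ℕ) : ∀ (F ι : Type) [Field F] [Fintype ι] [DecidableEq ι] (M : Matrix ι ι F),
    Fintype.card ι = N → Mᵀ = -M → (∀ i, M i i = 0) → IsSquare M.det := by
  induction N using Nat.strong_induction_on with
  | _ N ih =>
    intro F ι _ _ _ M hN hM h0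
    by_cases hz : M = 0
    · subst hz
      rcases isEmpty_or_nonempty ι with he | he
      · rw [det_isEmpty]
        exact IsSquare.one
      · rw [det_zero]
        exact IsSquare.zero
    · have hex : ∃ i j, M i j ≠ 0 := by
        by_contra hcon
        apply hz
        ext i j
        by_contra hij
        exact hcon ⟨i, j, hij⟩
      obtain ⟨i, j, hij⟩ := hex
      have hne : i ≠ j := by
        rintro rfl
        exact hij (h0 i)
      have hM' : ∀ k l, M l k = - M k l := by
        intro k l
        have := congrFun (congrFun hM k) l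
        simpa using this
      let f : Fin 2 ⊕ {k : ι // k ≠ i ∧ k ≠ j} → ι := Sum.elim ![i, j] Subtype.val
      have hf : Function.Bijective f := by
        constructor
        · rintro (a | a) (b | b) hab
          · fin_cases a <;> fin_cases b
            · rfl
            · exact absurd hab hne
            · exact absurd hab hne.symm
            · rfl
          · exfalso
            fin_cases a
            · exact b.2.1 hab.symm
            · exact b.2.2 hab.symm
          · exfalso
            fin_cases b
            · exact a.2.1 hab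
            · exact a.2.2 hab
          · exact congrArg Sum.inr (Subtype.ext hab)
        · intro k
          by_cases hk : k = i
          · exact ⟨Sum.inl 0, hk.symm⟩
          · by_cases hk' : k = j
            · exact ⟨Sum.inl 1, hk'.symm⟩
            · exact ⟨Sum.inr ⟨k, hk, hk'⟩, rfl⟩
      let e := Equiv.ofBijective f hf
      set m := M i j with hm
      let B : Matrix (Fin 2) {k : ι // k ≠ i ∧ k ≠ j} F := Matrix.of fun a k => M (![i, j] a) k
      let D : Matrix {k : ι // k ≠ i ∧ k ≠ j} {k : ι // k ≠ i ∧ k ≠ j} F :=
        Matrix.of fun k l => M k l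
      let A : Matrix (Fin 2) (Fin 2) F := !![0, m; -m, 0]
      have hsub : M.submatrix e e = fromBlocks A B (-Bᵀ) D := by
        ext a b
        rcases a with a | a <;> rcases b with b | b
        · fin_cases a <;> fin_cases b
          · exact h0 i
          · rfl
          · exact hM' i j
          · exact h0 j
        · rfl
        · exact hM' (![i, j] b) a
        · rfl
      have hA1 : !![0, -m⁻¹; m⁻¹, 0] * A = 1 := by
        ext a b
        fin_cases a <;> fin_cases b <;> simp [A, hij]
      have hA2 : A * !![0, -m⁻¹; m⁻¹, 0] = 1 := by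
        ext a b
        fin_cases a <;> fin_cases b <;> simp [A, hij]
      let _ : Invertible A := ⟨!![0, -m⁻¹; m⁻¹, 0], hA1, hA2⟩
      have hinv : ⅟A = !![0, -m⁻¹; m⁻¹, 0] := rfl
      have hdet : M.det = A.det * (D - (-Bᵀ) * ⅟A * B).det := by
        rw [← det_submatrix_equiv_self e M, hsub, det_fromBlocks₁₁]
      have hdetA : A.det = m * m := by
        simp [A, det_fin_two]
      have hD : Dᵀ = -D := by
        ext k l
        exact hM' k l
      obtain ⟨hS1, hS2⟩ := alt_schur m B D hD (fun k => h0 k)
      have hcard : Fintype.card {k : ι // k ≠ i ∧ k ≠ j} < N := by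
        rw [← hN]
        refine Fintype.card_subtype_lt (x := i) ?_
        simp
      have h1 := ih _ hcard F {k : ι // k ≠ i ∧ k ≠ j}
        (D - (-Bᵀ) * !![0, -m⁻¹; m⁻¹, 0] * B) rfl hS1 hS2
      rw [hdet, hdetA, hinv]
      exact (IsSquare.mul_self m).mul h1

end SQ

theorem SQ_thm : Stmt_SQ := by
  intro F ι _ _ _ M hM h0
  exact SQ.main _ F ι M rfl hM h0

end Pool.Agent.NCM
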