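import Pool.Agent.NCM.Stmts
import Pool.Agent.Lib_helper20.Noether.ARTIN

/-!
# SYF: symmetric rational functions
-/

set_option autoImplicit false

open Matrix Pool.Agent.Lib_helper20.Noether

namespace Pool.Agent.NCM

namespace SYF

open MvPolynomial Finset

/-- The elementary symmetric functions of the variables. -/
theorem esymm_mem {n : ℕ} (M : IntermediateField ℂ (E (Fin n)))
    (h : ∀ j : ℕ, (∏ i : Fin n, (Polynomial.X - Polynomial.C (x i : E (Fin n)))).coeff j ∈ M)
    (m : ℕ) (hm : m ≤ n) :
    aeval (fun i => (x i : E (Fin n))) (esymm (Fin n) ℂ m) ∈ M := by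
  have h1 := h (n - m)
  have h2 : (∏ i : Fin n, (Polynomial.X - Polynomial.C (x i : E (Fin n)))) =
      (((univ : Finset (Fin n)).val.map (fun i => (x i : E (Fin n)))).map
        (fun t => Polynomial.X - Polynomial.C t)).prod := by
    rw [Multiset.map_map]
    rfl
  have hc : Multiset.card ((univ : Finset (Fin n)).val.map (fun i => (x i : E (Fin n)))) = n := by
    simp
  rw [h2, Multiset.prod_X_sub_C_coeff _ (by rw [hc]; omega), hc, Nat.sub_sub_self hm] at h1
  rw [aeval_esymm_eq_multiset_esymm]
  have h3 := M.mul_mem (pow_mem (M.neg_mem M.one_mem) m) h1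
  rw [← mul_assoc, ← mul_pow, neg_one_mul, neg_neg, one_pow, one_mul] at h3
  exact h3

/-- Symmetric polynomials. -/
theorem symm_mem {n : ℕ} (M : IntermediateField ℂ (E (Fin n)))
    (h : ∀ j : ℕ, (∏ i : Fin n, (Polynomial.X - Polynomial.C (x i : E (Fin n)))).coeff j ∈ M)
    (p : MvPolynomial (Fin n) ℂ) (hp : p.IsSymmetric) :
    algebraMap (MvPolynomial (Fin n) ℂ) (E (Fin n)) p ∈ M := by
  obtain ⟨q, hq⟩ := esymmAlgHom_surjective (σ := Fin n) (R := ℂ) (n := n)
    (by rw [Fintype.card_fin]) ⟨p, hp⟩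
  have hq' : p = aeval (fun i : Fin n => esymm (Fin n) ℂ (i + 1)) q := by
    rw [← esymmAlgHom_apply, hq]
  have key : ∀ q : MvPolynomial (Fin n) ℂ, algebraMap (MvPolynomial (Fin n) ℂ) (E (Fin n))
      (aeval (fun i : Fin n => esymm (Fin n) ℂ (i + 1)) q) ∈ M := by
    intro q
    induction q using MvPolynomial.induction_on with
    | C r =>
      rw [aeval_C, MvPolynomial.algebraMap_eq]
      exact M.algebraMap_mem r
    | add p q hp hq =>
      rw [map_add, map_add]
      exact M.add_mem hp hq
    | mul_X p i hp =>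
      rw [map_mul, map_mul, aeval_X]
      refine M.mul_mem hp ?_
      have h1 := esymm_mem M h (i + 1) (by omega)
      have h2 : ∀ f : MvPolynomial (Fin n) ℂ, aeval (fun i => (x i : E (Fin n))) f =
          algebraMap (MvPolynomial (Fin n) ℂ) (E (Fin n)) f := by
        intro f
        have h3 : (aeval (fun i => (x i : E (Fin n))) : MvPolynomial (Fin n) ℂ →ₐ[ℂ] E (Fin n)) =
            IsScalarTower.toAlgHom ℂ (MvPolynomial (Fin n) ℂ) (E (Fin n)) := by
          ext i
          simp [x]
        rw [h3]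
        rfl
      rw [h2] at h1
      exact h1
  rw [hq']
  exact key q

end SYF

open SYF in
/-- SYF: symmetric rational functions. -/
theorem SYF_thm : Stmt_SYF := by
  classical
  intro n M h f hf
  obtain ⟨a, b, hb, rfl⟩ :=
    IsFractionRing.div_surjective (A := MvPolynomial (Fin n) ℂ) (K := E (Fin n)) f
  have hb0 : b ≠ 0 := nonZeroDivisors.ne_zero hb
  -- the norm of `b`
  let N : MvPolynomial (Fin n) ℂ := ∏ σ : Equiv.Perm (Fin n), MvPolynomial.rename σ b
  have hNs : N.IsSymmetric := by
    intro τ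
    rw [map_prod]
    refine Fintype.prod_equiv (Equiv.mulLeft τ) _ _ fun σ => ?_
    rw [MvPolynomial.rename_rename]
    rfl
  have hN0 : N ≠ 0 := by
    refine Finset.prod_ne_zero_iff.mpr fun σ _ => ?_
    rw [Ne, map_eq_zero_iff _ (MvPolynomial.rename_injective _ σ.injective)]
    exact hb0
  obtain ⟨b', hb'⟩ : b ∣ N := by
    have h1 := Finset.dvd_prod_of_mem (fun σ : Equiv.Perm (Fin n) => MvPolynomial.rename σ b)
      (Finset.mem_univ 1)
    simpa using h1
  set j := algebraMap (MvPolynomial (Fin n) ℂ) (E (Fin n)) with hj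
  have hinj : Function.Injective j := IsFractionRing.injective _ _
  have hjb : j b ≠ 0 := by
    rw [Ne, map_eq_zero_iff _ hinj]
    exact hb0
  have hjN : j N ≠ 0 := by
    rw [Ne, map_eq_zero_iff _ hinj]
    exact hN0
  have hf' : j a / j b = j (a * b') / j N := by
    rw [div_eq_div_iff hjb hjN, ← map_mul, ← map_mul, hb']
    congr 1
    ring
  have hcs : (a * b').IsSymmetric := by
    intro τ
    apply hinj
    have h1 := hf τ (Subgroup.mem_top τ)
    rw [hf', map_div₀, ARTIN.perm_algebraMap, ARTIN.perm_algebraMap, hNs τ,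
      div_left_inj' hjN] at h1
    exact h1
  rw [hf']
  exact M.div_mem (symm_mem M h _ hcs) (symm_mem M h _ hNs)

end Pool.Agent.NCM
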