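import Pool.Agent.NCM.Stmts

/-!
# Modules TRC and COMP
-/

open Matrix Pool.Agent.Lib_helper20.Noether

namespace Pool.Agent.NCM

namespace TRC

variable {K : Type} [Field K] {n : ℕ}

lemma pow_transpose {A : Matrix (Fin n) (Fin n) K} (h : Aᵀ = -A) (j : ℕ) :
    (A ^ j)ᵀ = (-1 : K) ^ j • A ^ j := by
  rw [Matrix.transpose_pow, h, ← neg_one_smul K A, smul_pow]

lemma trace_vecMulVec_mul (v : Fin n → K) (B : Matrix (Fin n) (Fin n) K) :
    trace (vecMulVec v v * B) = v ⬝ᵥ (B *ᵥ v) := by
  simp only [trace, diag_apply, mul_apply, vecMulVec_apply, dotProduct, mulVec]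
  rw [Finset.sum_comm]
  refine Finset.sum_congr rfl fun i _ => ?_
  rw [Finset.mul_sum]
  exact Finset.sum_congr rfl fun j _ => by ring

lemma dot_eq_trace {A X : Matrix (Fin n) (Fin n) K} {v : Fin n → K} (h : CM A X v) (j : ℕ) :
    v ⬝ᵥ (A ^ j *ᵥ v) = trace (A ^ j) := by
  have h1 : trace ((X * A - A * X) * A ^ j) = 0 := by
    rw [sub_mul, trace_sub, mul_assoc, mul_assoc, trace_mul_comm A (X * A ^ j), mul_assoc,
      ← pow_succ, ← pow_succ', sub_self]
  rw [h.comm, sub_mul, one_mul, trace_sub, trace_vecMulVec_mul] at h1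
  exact sub_eq_zero.mp h1

lemma trace_odd {A X : Matrix (Fin n) (Fin n) K} {v : Fin n → K} (h : CM A X v) {j : ℕ}
    (hj : Odd j) : trace (A ^ j) = 0 := by
  have h1 : trace (A ^ j) = - trace (A ^ j) := by
    conv_lhs => rw [← trace_transpose, pow_transpose h.skew, hj.neg_one_pow, neg_one_smul,
      trace_neg]
  have h2 : (2 : K) * trace (A ^ j) = 0 := by
    rw [two_mul]
    nth_rewrite 1 [h1]
    exact neg_add_cancel _
  exact (mul_eq_zero.mp h2).resolve_left h.two

lemma dot_shift {A X : Matrix (Fin n) (Fin n) K} {v : Fin n → K} (h : CM A X v) (i j : ℕ) :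
    (A ^ i *ᵥ v) ⬝ᵥ (A ^ j *ᵥ v) = (-1) ^ i * trace (A ^ (i + j)) := by
  rw [dotProduct_comm, ← dot_eq_trace h]
  rw [dotProduct_mulVec, ← mulVec_transpose, pow_transpose h.skew, smul_mulVec,
    smul_dotProduct, smul_eq_mul, dotProduct_comm, mulVec_mulVec, ← pow_add]

lemma kry_mulVec_single (A : Matrix (Fin n) (Fin n) K) (v : Fin n → K) (j : Fin n) :
    kry A v *ᵥ Pi.single j 1 = A ^ (j : ℕ) *ᵥ v := by
  ext i
  simp [kry]

end TRC

open TRC

theorem TRC_thm : Stmt_TRC := fun _ _ _ _ _ _ h j => ⟨dot_eq_trace h j, fun hj => trace_odd h hj⟩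

theorem COMP_thm (_hT : Stmt_TRC) : Stmt_COMP := by
  intro K _ n A X v h
  have hU : IsUnit (kry A v).det := isUnit_iff_ne_zero.mpr h.cyc
  have hinv : (kry A v)⁻¹ * kry A v = 1 := nonsing_inv_mul _ hU
  have hinv' : kry A v * (kry A v)⁻¹ = 1 := mul_nonsing_inv _ hU
  constructor
  · intro i j
    have hcol : ((kry A v)⁻¹ * A * kry A v) i j =
        ((kry A v)⁻¹ *ᵥ (A ^ ((j : ℕ) + 1) *ᵥ v)) i := by
      have h1 : ((kry A v)⁻¹ * A * kry A v) i j =
          (((kry A v)⁻¹ * A * kry A v) *ᵥ Pi.single j 1) i := by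
        simp
      rw [h1, ← mulVec_mulVec, kry_mulVec_single, ← mulVec_mulVec,
        mulVec_mulVec _ A, ← pow_succ']
    rw [hcol]
    by_cases hj : (j : ℕ) + 1 = n
    · rw [if_pos hj, hj]
      rfl
    · rw [if_neg hj]
      have hj' : (j : ℕ) + 1 < n := lt_of_le_of_ne j.2 hj
      have := kry_mulVec_single A v ⟨(j : ℕ) + 1, hj'⟩
      simp only at this
      rw [← this, mulVec_mulVec, hinv, one_mulVec, Pi.single_apply]
      simp [Fin.ext_iff]
  · set c := cvec A v with hc
    set G := (kry A v)ᵀ * kry A v with hG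
    have hGe : ∀ i j : Fin n, G i j = (-1) ^ (i : ℕ) * trace (A ^ ((i : ℕ) + j)) := by
      intro i j
      rw [hG, mul_apply, ← dot_shift h]
      rfl
    have hUc : kry A v *ᵥ c = A ^ n *ᵥ v := by
      rw [hc, cvec, mulVec_mulVec, hinv', one_mulVec]
    have hGc : ∀ i : Fin n, (G *ᵥ c) i = (-1) ^ (i : ℕ) * trace (A ^ ((i : ℕ) + n)) := by
      intro i
      rw [hG, ← mulVec_mulVec, hUc, ← dot_shift h]
      rfl
    -- the signed vector
    set D : Fin n → K := fun i => ((-1) ^ (i : ℕ) - (-1) ^ n) * c i with hD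
    have hGD : G *ᵥ D = 0 := by
      ext i
      have h1 : (G *ᵥ D) i = ((-1) ^ (i : ℕ) - (-1) ^ n) * (G *ᵥ c) i := by
        simp only [mulVec, dotProduct, hD, Finset.mul_sum]
        refine Finset.sum_congr rfl fun j _ => ?_
        rcases Nat.even_or_odd ((i : ℕ) + j) with he | ho
        · have : ((-1 : K)) ^ (i : ℕ) = (-1) ^ (j : ℕ) := by
            have h3 : ((-1 : K)) ^ ((i : ℕ) + j) = 1 := he.neg_one_pow
            rw [pow_add] at h3
            rcases neg_one_pow_eq_or K (i : ℕ) with h4 | h4 <;>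
            rcases neg_one_pow_eq_or K (j : ℕ) with h5 | h5 <;>
            rw [h4, h5] at h3 <;> rw [h4, h5]
            · simpa using h3.symm
            · simpa using h3
          rw [this]
          ring
        · rw [hGe, trace_odd h ho]
          ring
      rw [h1, hGc, Pi.zero_apply]
      rcases Nat.even_or_odd ((i : ℕ) + n) with he | ho
      · have : ((-1 : K)) ^ (i : ℕ) = (-1) ^ n := by
          have h3 : ((-1 : K)) ^ ((i : ℕ) + n) = 1 := he.neg_one_pow
          rw [pow_add] at h3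
          rcases neg_one_pow_eq_or K (i : ℕ) with h4 | h4 <;>
          rcases neg_one_pow_eq_or K n with h5 | h5 <;>
          rw [h4, h5] at h3 <;> rw [h4, h5]
          · simpa using h3.symm
          · simpa using h3
        rw [this, sub_self, zero_mul]
      · rw [trace_odd h ho]
        ring
    have hGdet : IsUnit G.det := by
      rw [hG, det_mul, det_transpose]
      exact hU.mul hU
    have hD0 : D = 0 := by
      have := congrArg (fun w => G⁻¹ *ᵥ w) hGD
      simpa [mulVec_mulVec, nonsing_inv_mul _ hGdet] using this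
    intro i hi
    have h1 : ((-1 : K) ^ (i : ℕ) - (-1) ^ n) * c i = 0 := congrFun hD0 i
    refine (mul_eq_zero.mp h1).resolve_left fun h2 => ?_
    have h3 : ((-1 : K)) ^ (n + (i : ℕ)) = -1 := hi.neg_one_pow
    rw [pow_add, sub_eq_zero.mp h2, ← mul_pow] at h3
    simp only [mul_neg, mul_one, neg_neg, one_pow] at h3
    exact h.two (by linear_combination h3)

end Pool.Agent.NCM
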